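import Pool.Agent.H762.LeeDefs

/-! # Computations in Lee's complex with tables of the circles -/

set_option autoImplicit false

namespace Pool.Agent.H762.LeeS

open Finset

/-- the half-edge with a given number -/
def unkey {n : ℕ} (j : ℕ) (hj : j < 4 * n) : HE n := (⟨j / 4, by omega⟩, ⟨j % 4, by omega⟩)

theorem key_lt {n : ℕ} (h : HE n) : key h < 4 * n := by
  obtain ⟨i, k⟩ := h
  simp only [key]
  omega

@[simp] theorem key_unkey {n : ℕ} (j : ℕ) (hj : j < 4 * n) : key (unkey j hj) = j := by
  simp only [key, unkey]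
  omega

theorem key_inj {n : ℕ} {h h' : HE n} (e : key h = key h') : h = h' := by
  obtain ⟨⟨i, hi⟩, ⟨k, hk⟩⟩ := h
  obtain ⟨⟨i', hi'⟩, ⟨k', hk'⟩⟩ := h'
  simp only [key] at e
  simp only [Prod.mk.injEq, Fin.mk.injEq]
  omega

@[simp] theorem unkey_key {n : ℕ} (h : HE n) (hj : key h < 4 * n) : unkey (key h) hj = h :=
  key_inj (by simp)

/-- the smoothing with a given code -/
def bits {n : ℕ} (R : ℕ) (i : Fin n) : Bool := R.testBit i

theorem exists_bits {n : ℕ} (r : Fin n → Bool) : ∃ R < 2 ^ n, r = bits R :=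
  ⟨Nat.ofBits r, Nat.ofBits_lt_two_pow r, by
    funext i
    simp [bits, Nat.testBit_ofBits_lt]⟩

/-- Tables of the circles of all smoothings: `ix R j` is the index of the circle through the
half-edge with number `j`, and `lead R c` is the least half-edge on the circle `c`. -/
structure Tab {n : ℕ} (D : Diagram n) where
  ix : ℕ → ℕ → ℕ
  lead : ℕ → ℕ → ℕ
  ix_mate : ∀ R < 2 ^ n, ∀ h : HE n, ix R (key (D.mate h)) = ix R (key h)
  ix_part : ∀ R < 2 ^ n, ∀ h : HE n, ix R (key (part (bits R) h)) = ix R (key h)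
  ix_lt : ∀ R < 2 ^ n, ∀ h : HE n, ix R (key h) < 4
  lead_le : ∀ R < 2 ^ n, ∀ h : HE n, lead R (ix R (key h)) ≤ key h
  reach : ∀ R < 2 ^ n, ∀ h h' : HE n, key h' = lead R (ix R (key h)) → D.Same (bits R) h h'

section
variable {n : ℕ} {D : Diagram n} (T : Tab D)

theorem Same.trans' {r : Fin n → Bool} {a b c : HE n} (h : D.Same r a b) (h' : D.Same r b c) :
    D.Same r a c := fun f h1 h2 => (h f h1 h2).trans (h' f h1 h2)

theorem Same.symm' {r : Fin n → Bool} {a b : HE n} (h : D.Same r a b) :
    D.Same r b a := fun f h1 h2 => (h f h1 h2).symm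

include T in
theorem same_iff {R : ℕ} (hR : R < 2 ^ n) (h h' : HE n) :
    D.Same (bits R) h h' ↔ T.ix R (key h) = T.ix R (key h') := by
  constructor
  · intro hs
    have := hs (fun x => decide (T.ix R (key x) = T.ix R (key h)))
      (fun x => by simp [T.ix_mate R hR]) (fun x => by simp [T.ix_part R hR])
    simp at this
    exact this.symm
  · intro e
    have hl := lt_of_le_of_lt (T.lead_le R hR h) (key_lt h)
    have h1 := T.reach R hR h (unkey _ hl) (by simp)
    have h2 := T.reach R hR h' (unkey _ hl) (by simp [e])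
    exact Same.trans' h1 (Same.symm' h2)

include T in
theorem least_iff {R : ℕ} (hR : R < 2 ^ n) (h : HE n) :
    D.Least (bits R) h ↔ T.lead R (T.ix R (key h)) = key h := by
  constructor
  · intro hs
    have hl := lt_of_le_of_lt (T.lead_le R hR h) (key_lt h)
    have h1 := T.reach R hR h (unkey _ hl) (by simp)
    have h2 := hs _ h1
    have h3 := T.lead_le R hR h
    simp only [key_unkey] at h2
    omega
  · intro e h' hs
    rw [same_iff T hR] at hs
    have h3 := T.lead_le R hR h'
    rw [← hs, e] at h3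
    exact h3

/-- the enhanced state with given codes -/
def mkS (R : ℕ) (hR : R < 2 ^ n) (v : ℕ) : State D where
  r := bits R
  lab h := v.testBit (T.ix R (key h))
  lab_mate h := by rw [T.ix_mate R hR]
  lab_part h := by rw [T.ix_part R hR]

theorem exists_mkS (s : State D) : ∃ R, ∃ hR : R < 2 ^ n, ∃ v < 16, s = mkS T R hR v := by
  obtain ⟨R, hR, hr⟩ := exists_bits s.r
  let g : Fin 4 → Bool := fun c =>
    if hc : T.lead R c < 4 * n then s.lab (unkey _ hc) else false
  refine ⟨R, hR, Nat.ofBits g, Nat.ofBits_lt_two_pow g, ?_⟩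
  apply State.ext hr
  funext h
  show s.lab h = (Nat.ofBits g).testBit (T.ix R (key h))
  have hi := T.ix_lt R hR h
  rw [Nat.testBit_ofBits_lt _ _ hi]
  have hl := lt_of_le_of_lt (T.lead_le R hR h) (key_lt h)
  show s.lab h = if hc : T.lead R (T.ix R (key h)) < 4 * n then _ else _
  rw [dif_pos hl]
  have h1 := T.reach R hR h (unkey _ hl) (by simp)
  rw [← hr] at h1
  exact h1 s.lab s.lab_mate s.lab_part

/-- filtering the half-edges by their numbers -/
theorem card_filter_key (P : HE n → Prop) [DecidablePred P] (p : ℕ → Bool)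
    (hp : ∀ h, P h ↔ p (key h) = true) :
    (univ.filter P).card = ((range (4 * n)).filter fun j => p j = true).card := by
  apply card_bij (fun h _ => key h)
  · intro h hh
    simp only [mem_filter, mem_univ, true_and] at hh
    simp only [mem_filter, mem_range]
    exact ⟨key_lt h, (hp h).mp hh⟩
  · intro a _ b _ e
    exact key_inj e
  · intro j hj
    simp only [mem_filter, mem_range] at hj
    refine ⟨unkey j hj.1, ?_, by simp⟩
    simp only [mem_filter, mem_univ, true_and]
    rw [hp]
    simpa using hj.2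

/-- the number of circles with label `b` -/
def countN (ix lead : ℕ → ℕ → ℕ) (n R v : ℕ) (b : Bool) : ℕ :=
  ((range (4 * n)).filter fun j =>
    (lead R (ix R j) == j && v.testBit (ix R j) == b) = true).card

theorem count_mkS (R : ℕ) (hR : R < 2 ^ n) (v : ℕ) (b : Bool) :
    (mkS T R hR v).count b = countN T.ix T.lead n R v b := by
  classical
  unfold State.count countN
  rw [← card_filter_key (n := n) (fun h => D.Least (mkS T R hR v).r h ∧ (mkS T R hR v).lab h = b)
    (fun j => T.lead R (T.ix R j) == j && v.testBit (T.ix R j) == b)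
    (fun h => by simp only [mkS, least_iff T hR, Bool.and_eq_true, beq_iff_eq])]

/-- the number of `1`-smoothings -/
def popN (n R : ℕ) : ℕ := ((range n).filter fun i => R.testBit i = true).card

theorem card_filter_fin (p : ℕ → Bool) :
    (univ.filter fun i : Fin n => p i = true).card = ((range n).filter fun i => p i = true).card := by
  apply card_bij (fun h _ => h.1)
  · intro h hh
    simp only [mem_filter, mem_univ, true_and] at hh
    simp only [mem_filter, mem_range]
    exact ⟨h.2, hh⟩
  · intro a _ b _ e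
    exact Fin.ext e
  · intro j hj
    simp only [mem_filter, mem_range] at hj
    exact ⟨⟨j, hj.1⟩, by simpa using hj.2, rfl⟩

/-- the quantum degree without the constant shift -/
def qN (ix lead : ℕ → ℕ → ℕ) (n : ℕ) (w : ℤ) (R v : ℕ) : ℤ :=
  (countN ix lead n R v false : ℤ) - countN ix lead n R v true + popN n R + w

theorem q_mkS (R : ℕ) (hR : R < 2 ^ n) (v : ℕ) (w : ℤ)
    (hw : ((univ.filter fun i => D.positive i = true).card : ℤ)
      - 2 * (univ.filter fun i => D.positive i = false).card = w) :
    (mkS T R hR v).q = qN T.ix T.lead n w R v := by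
  unfold State.q qN
  rw [count_mkS, count_mkS, ← hw]
  have : (univ.filter fun i => (mkS T R hR v).r i = true).card = popN n R := by
    unfold popN
    exact card_filter_fin (n := n) (fun i => R.testBit i)
  rw [this]
  ring

/-- `occurs` for states given by codes -/
def occN (ix : ℕ → ℕ → ℕ) (n R v R' v' i : ℕ) : Bool :=
  !(R.testBit i) && ((R' == (R ||| 2 ^ i)) &&
  (((List.range (4 * n)).all fun j => (ix R (4 * i) == ix R j) || ((ix R (4 * i + 2) == ix R j) ||
    (v'.testBit (ix R' j) == v.testBit (ix R j)))) &&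
  (if ix R (4 * i) == ix R (4 * i + 2) then
    (xor (v'.testBit (ix R' (4 * i))) (v'.testBit (ix R' (4 * i + 1))))
      == !(v.testBit (ix R (4 * i)))
  else v'.testBit (ix R' (4 * i))
    == xor (v.testBit (ix R (4 * i))) (v.testBit (ix R (4 * i + 2))))))

theorem bits_update {R R' : ℕ} (hR : R < 2 ^ n) (hR' : R' < 2 ^ n) (i : Fin n) :
    (bits R' : Fin n → Bool) = Function.update (bits R) i true ↔ R' = R ||| 2 ^ i.1 := by
  constructor
  · intro e
    apply Nat.eq_of_testBit_eq
    intro j
    by_cases hj : j < n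
    · have := congrFun e ⟨j, hj⟩
      simp only [bits, Function.update_apply, Fin.ext_iff] at this
      rw [this, Nat.testBit_or, Nat.testBit_two_pow]
      by_cases hji : j = i.1
      · simp [hji]
      · have : ¬ i.1 = j := fun h => hji h.symm
        simp [hji, this]
    · rw [Nat.testBit_or, Nat.testBit_two_pow]
      have h1 : R'.testBit j = false :=
        Nat.testBit_lt_two_pow (lt_of_lt_of_le hR' (Nat.pow_le_pow_right (by norm_num) (by omega)))
      have h2 : R.testBit j = false :=
        Nat.testBit_lt_two_pow (lt_of_lt_of_le hR (Nat.pow_le_pow_right (by norm_num) (by omega)))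
      have h3 : ¬ i.1 = j := by have := i.2; omega
      simp [h1, h2, h3]
  · intro e
    subst e
    funext j
    simp only [bits, Function.update_apply]
    rw [Nat.testBit_or, Nat.testBit_two_pow]
    by_cases hji : j = i
    · simp [hji]
    · have : ¬ i.1 = j.1 := fun h => hji (Fin.ext h.symm)
      simp [hji, this]

theorem occurs_mkS {R R' : ℕ} (hR : R < 2 ^ n) (hR' : R' < 2 ^ n) (v v' : ℕ) (i : Fin n) :
    occurs (mkS T R hR v) (mkS T R' hR' v') i ↔ occN T.ix n R v R' v' i = true := by
  have k0 : key ((i, 0) : HE n) = 4 * i.1 := by simp [key]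
  have k1 : key ((i, 1) : HE n) = 4 * i.1 + 1 := by simp [key]
  have k2 : key ((i, 2) : HE n) = 4 * i.1 + 2 := by simp [key]
  unfold occurs occN
  simp only [mkS]
  rw [bits_update hR hR']
  simp only [same_iff T hR, k0, k1, k2, Bool.and_eq_true, Bool.not_eq_true', beq_iff_eq,
    List.all_eq_true, List.mem_range, Bool.or_eq_true]
  refine and_congr Iff.rfl (and_congr Iff.rfl (and_congr ?_ ?_))
  · constructor
    · intro h j hj
      have := h (unkey j hj)
      simp only [key_unkey] at this
      tauto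
    · intro h x
      have := h (key x) (key_lt x)
      tauto
  · by_cases e : T.ix R (4 * i.1) = T.ix R (4 * i.1 + 2)
    · simp [e]
    · simp [e]

/-- the sign of a component of the differential -/
def sgnN (R i : ℕ) : ℤ :=
  if ((range i).filter fun j => R.testBit j = true).card % 2 = 0 then 1 else -1

/-- the matrix of the differential for states given by codes -/
def coefN (ix : ℕ → ℕ → ℕ) (n R v R' v' : ℕ) : ℤ :=
  ((List.range n).map fun i => if occN ix n R v R' v' i then sgnN R i else 0).sum

theorem coefN_eq_zero (ix : ℕ → ℕ → ℕ) (n R v R' v' : ℕ) (h : ¬ R ||| R' = R') :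
    coefN ix n R v R' v' = 0 := by
  unfold coefN
  apply List.sum_eq_zero
  intro x hx
  rw [List.mem_map] at hx
  obtain ⟨i, -, rfl⟩ := hx
  rw [if_neg]
  intro ho
  apply h
  unfold occN at ho
  simp only [Bool.and_eq_true, beq_iff_eq] at ho
  rw [ho.2.1]
  rw [← Nat.lor_assoc, Nat.or_self]

theorem sgn_eq {R : ℕ} (i : Fin n) :
    ((-1 : ℚ) ^ (univ.filter fun j : Fin n => j < i ∧ (bits R : Fin n → Bool) j = true).card)
      = ((sgnN R i : ℤ) : ℚ) := by
  have e : (univ.filter fun j : Fin n => j < i ∧ (bits R : Fin n → Bool) j = true).card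
      = ((range i.1).filter fun j => R.testBit j = true).card := by
    refine Finset.card_bij (fun h _ => h.1) ?_ ?_ ?_
    · intro h hh
      rw [Finset.mem_filter] at hh
      simp only [mem_univ, true_and, bits] at hh
      simp only [mem_filter, mem_range]
      exact ⟨hh.1, hh.2⟩
    · intro a _ b _ e
      exact Fin.ext e
    · intro j hj
      simp only [mem_filter, mem_range] at hj
      have := i.2
      refine ⟨⟨j, by omega⟩, ?_, rfl⟩
      rw [Finset.mem_filter]
      simp only [mem_univ, true_and, bits]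
      exact ⟨hj.1, hj.2⟩
  rw [e]
  unfold sgnN
  generalize ((range i.1).filter fun j => R.testBit j = true).card = m
  split_ifs with h
  · rw [Even.neg_one_pow (Nat.even_iff.mpr h)]
    simp
  · rw [Odd.neg_one_pow (Nat.odd_iff.mpr (by omega))]
    simp

theorem coef_mkS {R R' : ℕ} (hR : R < 2 ^ n) (hR' : R' < 2 ^ n) (v v' : ℕ) :
    coef (mkS T R hR v) (mkS T R' hR' v') = ((coefN T.ix n R v R' v' : ℤ) : ℚ) := by
  classical
  unfold coef coefN
  have e : ∀ f : ℕ → ℤ, ((List.range n).map f).sum = ∑ i : Fin n, f i := by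
    intro f
    rw [Finset.sum_fin_eq_sum_range]
    rw [show ((List.range n).map f).sum = ∑ i ∈ range n, f i from rfl]
    apply Finset.sum_congr rfl
    intro i hi
    rw [dif_pos (mem_range.mp hi)]
  rw [e]
  push_cast
  apply Finset.sum_congr rfl
  intro i _
  rw [show (mkS T R hR v).r = bits R from rfl]
  by_cases h : occN T.ix n R v R' v' i = true
  · rw [if_pos ((occurs_mkS T hR hR' v v' i).mpr h), if_pos h, sgn_eq]
  · rw [if_neg (fun h' => h ((occurs_mkS T hR hR' v v' i).mp h')), if_neg h]

end

/-! ### Bounds for the filtration degree -/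

section
variable {n : ℕ} {D : Diagram n}

theorem filt_nonempty (z : State D → ℚ) :
    {j : ℤ | ∃ y : State D → ℚ, ∀ s : State D, s.q < j → z s = lee y s}.Nonempty := by
  classical
  by_cases h : Nonempty (State D)
  · obtain ⟨s0, hs0⟩ := Finite.exists_min (fun s : State D => s.q)
    exact ⟨s0.q, 0, fun s hs => absurd (hs0 s) (not_le.mpr hs)⟩
  · exact ⟨0, 0, fun s => absurd ⟨s⟩ h⟩

/-- An upper bound is given by a cocycle. -/
theorem filtDeg_le (z φ : State D → ℚ) (j : ℤ) (h1 : ∀ s, ∑ s', φ s' * coef s s' = 0)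
    (h2 : ∀ s, φ s ≠ 0 → s.q ≤ j) (h3 : ∑ s, φ s * z s ≠ 0) : filtDeg z ≤ j := by
  apply csSup_le (filt_nonempty z)
  rintro k ⟨y, hy⟩
  by_contra hk
  push Not at hk
  apply h3
  have e : ∀ s, φ s * z s = φ s * lee y s := by
    intro s
    by_cases hs : φ s = 0
    · rw [hs, zero_mul, zero_mul]
    · rw [hy s (lt_of_le_of_lt (h2 s hs) hk)]
  rw [Finset.sum_congr rfl fun s _ => e s]
  unfold lee
  simp_rw [Finset.mul_sum]
  rw [Finset.sum_comm]
  apply Finset.sum_eq_zero
  intro s _
  have : ∑ s', φ s' * (coef s s' * y s) = (∑ s', φ s' * coef s s') * y s := by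
    rw [Finset.sum_mul]
    exact Finset.sum_congr rfl fun _ _ => by ring
  rw [this, h1, zero_mul]

theorem filt_bdd (z φ : State D → ℚ) (j : ℤ) (h1 : ∀ s, ∑ s', φ s' * coef s s' = 0)
    (h2 : ∀ s, φ s ≠ 0 → s.q ≤ j) (h3 : ∑ s, φ s * z s ≠ 0) :
    BddAbove {j : ℤ | ∃ y : State D → ℚ, ∀ s : State D, s.q < j → z s = lee y s} := by
  refine ⟨j, ?_⟩
  rintro k ⟨y, hy⟩
  by_contra hk
  push Not at hk
  apply h3
  have e : ∀ s, φ s * z s = φ s * lee y s := by
    intro s
    by_cases hs : φ s = 0
    · rw [hs, zero_mul, zero_mul]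
    · rw [hy s (lt_of_le_of_lt (h2 s hs) hk)]
  rw [Finset.sum_congr rfl fun s _ => e s]
  unfold lee
  simp_rw [Finset.mul_sum]
  rw [Finset.sum_comm]
  apply Finset.sum_eq_zero
  intro s _
  have : ∑ s', φ s' * (coef s s' * y s) = (∑ s', φ s' * coef s s') * y s := by
    rw [Finset.sum_mul]
    exact Finset.sum_congr rfl fun _ _ => by ring
  rw [this, h1, zero_mul]

/-- The value of the filtration degree. -/
theorem filtDeg_eq (z φ y : State D → ℚ) (j : ℤ) (h1 : ∀ s, ∑ s', φ s' * coef s s' = 0)
    (h2 : ∀ s, φ s ≠ 0 → s.q ≤ j) (h3 : ∑ s, φ s * z s ≠ 0)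
    (h4 : ∀ s : State D, s.q < j → z s = lee y s) : filtDeg z = j :=
  le_antisymm (filtDeg_le z φ j h1 h2 h3) (le_csSup (filt_bdd z φ j h1 h2 h3) ⟨y, h4⟩)

end

end Pool.Agent.H762.LeeS
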