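import Mathlib

/-!
# Oriented link diagrams, Lee's complex and the Rasmussen invariant of links

Everything here is a definition, in the order in which it is used; only `Diagram.neg` needs
(short) proofs.

* `Diagram n`: a connected oriented link diagram with `n` crossings on the sphere. The half-edge
  `(i, k)` is the `k`-th of the four ends of strands at the crossing `i`, in counterclockwise
  order; `(i, 0)`, `(i, 2)` belong to the under strand and `(i, 1)`, `(i, 3)` to the over strand.
* `Diagram.neg`: the mirror image with all orientations reversed.
* `Diagram.NonzeroDet`: the determinant of the link is not zero.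
* `State`, `coef`, `lee`: the enhanced states and the differential of Lee's complex over `ℚ`.
* `rasmussen`: the `s`-invariant of Beliakova and Wehrli.
-/

set_option autoImplicit false

namespace Pool.Agent.H762.LeeS

/-- The half-edges of a diagram with `n` crossings. -/
abbrev HE (n : ℕ) := Fin n × Fin 4

/-- The next half-edge at the same crossing, counterclockwise. -/
def next {n : ℕ} (h : HE n) : HE n := (h.1, h.2 + 1)

/-- The previous half-edge at the same crossing. -/
def prev {n : ℕ} (h : HE n) : HE n := (h.1, h.2 - 1)

/-- A connected oriented link diagram with `n` crossings on the sphere: `mate` joins the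
half-edges to the edges of the diagram, and `out h` says that the strand leaves the crossing
along the half-edge `h`. The faces are the cycles of `next ∘ mate`. -/
structure Diagram (n : ℕ) where
  mate : HE n → HE n
  out : HE n → Bool
  mate_mate : ∀ h, mate (mate h) = h
  mate_ne : ∀ h, mate h ≠ h
  out_mate : ∀ h, out (mate h) = !out h
  out_opposite : ∀ h, out (next (next h)) = !out h
  connected : ∀ f : HE n → Bool, (∀ h, f (mate h) = f h) → (∀ h, f (next h) = f h) →
    ∀ h h', f h = f h'
  spherical : Nat.card (Quot fun h h' : HE n => h' = next (mate h)) = n + 2

/-- `next` as a permutation -/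
def nextEquiv (n : ℕ) : HE n ≃ HE n where
  toFun := next
  invFun := prev
  left_inv h := by simp [next, prev]
  right_inv h := by simp [next, prev]

/-- The mirror image, with all orientations reversed. The crossings are changed, and the
half-edge `(i, k + 1)` of the diagram becomes the half-edge `(i, k)` of the new diagram, so that
`(i, 0)`, `(i, 2)` belong to the under strand again. -/
def Diagram.neg {n : ℕ} (D : Diagram n) : Diagram n where
  mate h := prev (D.mate (next h))
  out h := !D.out (next h)
  mate_mate h := by
    have e : ∀ x : HE n, next (prev x) = x := fun x => by simp [next, prev]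
    have e' : ∀ x : HE n, prev (next x) = x := fun x => by simp [next, prev]
    simp [e, e', D.mate_mate]
  mate_ne h := by
    intro hh
    have e : ∀ x : HE n, next (prev x) = x := fun x => by simp [next, prev]
    exact D.mate_ne (next h) (by rw [← e (D.mate (next h)), hh])
  out_mate h := by
    have e : ∀ x : HE n, next (prev x) = x := fun x => by simp [next, prev]
    simp [e, D.out_mate]
  out_opposite h := by
    simp [D.out_opposite (next h)]
  connected f h1 h2 := by
    have e : ∀ x : HE n, next (prev x) = x := fun x => by simp [next, prev]
    have h2' : ∀ h, f (prev h) = f h := fun h => by rw [← h2 (prev h), e]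
    refine D.connected f (fun h => ?_) h2
    have := h1 (prev h)
    rw [e, h2', h2'] at this
    exact this
  spherical := by
    rw [← D.spherical]
    refine Nat.card_congr (Quot.congr (nextEquiv n) fun h h' => ?_)
    have e : ∀ x : HE n, next (prev x) = x := fun x => by simp [next, prev]
    show h' = next (prev (D.mate (next h))) ↔ next h' = next (D.mate (next h))
    rw [e]
    constructor
    · intro hh; rw [hh]
    · intro hh; exact (nextEquiv n).injective hh

/-- The determinant of the link is not zero: the only rational Fox colourings are constant.
(A colouring is constant on the over strands of the crossings, and at every crossing the value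
on the over strand is the mean of the values on the two ends of the under strand.) -/
def Diagram.NonzeroDet {n : ℕ} (D : Diagram n) : Prop :=
  ∀ c : HE n → ℚ, (∀ h, c (D.mate h) = c h) → (∀ i, c (i, 3) = c (i, 1)) →
    (∀ i, 2 * c (i, 1) = c (i, 0) + c (i, 2)) → ∀ h h', c h = c h'

/-- The crossing `i` is positive. (Both strands leave it along neighbouring half-edges `(i, 1)`
and `(i, 2)`, or along `(i, 3)` and `(i, 0)`.) -/
def Diagram.positive {n : ℕ} (D : Diagram n) (i : Fin n) : Bool := D.out (i, 1) == D.out (i, 2)

/-- The smoothing `r i` of the crossing `i` joins `(i, 0)`, `(i, 1)` and `(i, 2)`, `(i, 3)` if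
`r i = false`, and `(i, 1)`, `(i, 2)` and `(i, 3)`, `(i, 0)` if `r i = true`. -/
def part {n : ℕ} (r : Fin n → Bool) (h : HE n) : HE n :=
  (h.1, if r h.1 then 3 - h.2 else (if h.2 = 0 then 1 else if h.2 = 1 then 0 else
    if h.2 = 2 then 3 else 2))

/-- `h` and `h'` are on the same circle of the smoothing `r`: every labelling of the half-edges
that is constant along the edges and along the arcs of the smoothing has the same values on `h`
and `h'`. -/
def Diagram.Same {n : ℕ} (D : Diagram n) (r : Fin n → Bool) (h h' : HE n) : Prop :=
  ∀ f : HE n → Bool, (∀ x, f (D.mate x) = f x) → (∀ x, f (part r x) = f x) → f h = f h'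

/-- The number of the half-edge `(i, k)`. -/
def key {n : ℕ} (h : HE n) : ℕ := 4 * h.1 + h.2

/-- `h` has the least number among the half-edges on its circle. So the circles correspond to
the half-edges with this property. -/
def Diagram.Least {n : ℕ} (D : Diagram n) (r : Fin n → Bool) (h : HE n) : Prop :=
  ∀ h', D.Same r h h' → key h ≤ key h'

/-- An enhanced state: a smoothing `r` and a label `X` (`true`) or `1` (`false`) on every circle.
The enhanced states are the basis of Lee's complex. -/
@[ext] structure State {n : ℕ} (D : Diagram n) where
  r : Fin n → Bool
  lab : HE n → Bool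
  lab_mate : ∀ h, lab (D.mate h) = lab h
  lab_part : ∀ h, lab (part r h) = lab h
deriving DecidableEq, Fintype

open Classical in
/-- The number of circles with the label `b`. -/
noncomputable def State.count {n : ℕ} {D : Diagram n} (s : State D) (b : Bool) : ℕ :=
  (Finset.univ.filter fun h => D.Least s.r h ∧ s.lab h = b).card

/-- The quantum degree: the number of labels `1` minus the number of labels `X`, plus the number
of `1`-smoothings, plus the number of positive crossings, minus twice the number of negative
crossings. -/
noncomputable def State.q {n : ℕ} {D : Diagram n} (s : State D) : ℤ :=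
  s.count false - s.count true + (Finset.univ.filter fun i => s.r i = true).card
    + (Finset.univ.filter fun i => D.positive i = true).card
    - 2 * (Finset.univ.filter fun i => D.positive i = false).card

/-- `s'` occurs in the image of `s` under the map that changes the smoothing of the crossing `i`
from `0` to `1`: the labels of the circles that do not pass through `i` are the same, and
* if two circles are merged, `1 ⊗ 1 ↦ 1`, `1 ⊗ X, X ⊗ 1 ↦ X`, `X ⊗ X ↦ 1`;
* if a circle is split, `1 ↦ 1 ⊗ X + X ⊗ 1`, `X ↦ X ⊗ X + 1 ⊗ 1`. -/
def occurs {n : ℕ} {D : Diagram n} (s s' : State D) (i : Fin n) : Prop :=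
  s.r i = false ∧ s'.r = Function.update s.r i true ∧
    (∀ h, ¬ D.Same s.r (i, 0) h → ¬ D.Same s.r (i, 2) h → s'.lab h = s.lab h) ∧
    (¬ D.Same s.r (i, 0) (i, 2) → s'.lab (i, 0) = xor (s.lab (i, 0)) (s.lab (i, 2))) ∧
    (D.Same s.r (i, 0) (i, 2) → xor (s'.lab (i, 0)) (s'.lab (i, 1)) = !s.lab (i, 0))

open Classical in
/-- The matrix of Lee's differential, with the sign `(-1) ^ #{j < i | r j = 1}`. -/
noncomputable def coef {n : ℕ} {D : Diagram n} (s s' : State D) : ℚ :=
  ∑ i, if occurs s s' i then (-1) ^ (Finset.univ.filter fun j => j < i ∧ s.r j = true).card else 0

/-- Lee's differential over the rational numbers. -/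
noncomputable def lee {n : ℕ} {D : Diagram n} (y : State D → ℚ) (s' : State D) : ℚ :=
  ∑ s, coef s s' * y s

/-- The filtration degree of the class of `z` in Lee homology: the greatest `j` such that `z` is
homologous to a chain all of whose terms have quantum degree at least `j`. -/
noncomputable def filtDeg {n : ℕ} {D : Diagram n} (z : State D → ℚ) : ℤ :=
  sSup {j : ℤ | ∃ y : State D → ℚ, ∀ s : State D, s.q < j → z s = lee y s}

/-- The oriented smoothing. -/
def Diagram.oriented {n : ℕ} (D : Diagram n) (i : Fin n) : Bool := !D.positive i

/-- `c` gives the two labels `a` (`false`) and `b` (`true`) to the circles of the oriented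
smoothing in such a way that the two circles at a crossing have different labels. As the diagram
is connected, there are exactly two such labellings, `c` and the opposite one. -/
def Diagram.Canonical {n : ℕ} (D : Diagram n) (c : HE n → Bool) : Prop :=
  (∀ h, c (D.mate h) = c h) ∧ (∀ h, c (part D.oriented h) = c h) ∧ ∀ i, c (i, 2) = !c (i, 0)

open Classical in
/-- Lee's canonical generator: the product of `a = X + 1` and `b = X - 1` over the circles of the
oriented smoothing. The coefficient of an enhanced state is the product of `-1` over the circles
with `c = b` and the label `1`. -/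
noncomputable def gen {n : ℕ} {D : Diagram n} (c : HE n → Bool) (s : State D) : ℚ :=
  if s.r = D.oriented then
    (-1) ^ (Finset.univ.filter fun h => D.Least s.r h ∧ c h = true ∧ s.lab h = false).card
  else 0

/-- `s_o + s_ō` and `s_o - s_ō`, where `s_o = gen c` and `s_ō = gen (!c)`. -/
noncomputable def genSum {n : ℕ} {D : Diagram n} (c : HE n → Bool) (ε : ℚ) (s : State D) : ℚ :=
  gen c s + ε * gen (fun h => !c h) s

open Classical in
/-- The Rasmussen invariant of the oriented link (Beliakova and Wehrli): the mean of the
filtration degrees of the classes `s_o + s_ō` and `s_o - s_ō`. -/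
noncomputable def Diagram.rasmussen {n : ℕ} (D : Diagram n) : ℚ :=
  if h : ∃ c, D.Canonical c then
    ((filtDeg (D := D) (genSum h.choose 1) : ℚ) + filtDeg (D := D) (genSum h.choose (-1))) / 2
  else 0

end Pool.Agent.H762.LeeS
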