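import Pool.Agent.H762.LeeCalc

/-! # From numerical tables to the Rasmussen invariant -/

set_option autoImplicit false

namespace Pool.Agent.H762.LeeS

open Finset

/-! ### Uniqueness of the canonical labelling -/

section
variable {n : ℕ} {D : Diagram n}

theorem xor_const {c c' : HE n → Bool} (hc : D.Canonical c) (hc' : D.Canonical c') :
    ∀ h h', xor (c h) (c' h) = xor (c h') (c' h') := by
  have key2 : ∀ i : Fin n, ∀ k : Fin 4, xor (c (i, k)) (c' (i, k)) = xor (c (i, 0)) (c' (i, 0)) := by
    intro i k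
    obtain ⟨-, h2, h3⟩ := hc
    obtain ⟨-, h2', h3'⟩ := hc'
    have a0 := h2 (i, 0)
    have a2 := h2 (i, 2)
    have b0 := h2' (i, 0)
    have b2 := h2' (i, 2)
    have a := h3 i
    have b := h3' i
    simp only [part] at a0 a2 b0 b2
    cases hr : D.oriented i
    · simp [hr] at a0 a2 b0 b2
      fin_cases k
      · rfl
      · show xor (c (i, 1)) (c' (i, 1)) = _
        rw [a0, b0]
      · show xor (c (i, 2)) (c' (i, 2)) = _
        rw [a, b]; simp
      · show xor (c (i, 3)) (c' (i, 3)) = _
        rw [a2, b2, a, b]; simp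
    · simp [hr] at a0 a2 b0 b2
      fin_cases k
      · rfl
      · show xor (c (i, 1)) (c' (i, 1)) = _
        rw [a2, b2, a, b]; simp
      · show xor (c (i, 2)) (c' (i, 2)) = _
        rw [a, b]; simp
      · show xor (c (i, 3)) (c' (i, 3)) = _
        rw [a0, b0]
  apply D.connected (fun h => xor (c h) (c' h))
  · intro h
    show xor (c (D.mate h)) (c' (D.mate h)) = _
    rw [hc.1, hc'.1]
  · rintro ⟨i, k⟩
    show xor (c (i, k + 1)) (c' (i, k + 1)) = xor (c (i, k)) (c' (i, k))
    rw [key2, key2 i k]

theorem canonical_eq {c c' : HE n → Bool} (hc : D.Canonical c) (hc' : D.Canonical c') :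
    c = c' ∨ c = fun h => !c' h := by
  have h := xor_const hc hc'
  by_cases hn : Nonempty (HE n)
  · obtain ⟨h0⟩ := hn
    cases e : xor (c h0) (c' h0)
    · left
      funext x
      have := (h x h0).trans e
      revert this
      cases c x <;> cases c' x <;> decide
    · right
      funext x
      have := (h x h0).trans e
      revert this
      cases c x <;> cases c' x <;> decide
  · left
    funext x
    exact absurd ⟨x⟩ hn

theorem filtDeg_neg (z : State D → ℚ) : filtDeg (fun s => -z s) = filtDeg z := by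
  unfold filtDeg
  congr 1
  ext j
  constructor
  · rintro ⟨y, hy⟩
    refine ⟨fun s => -y s, fun s hs => ?_⟩
    have := hy s hs
    have e : lee (fun s => -y s) s = -lee y s := by
      unfold lee
      rw [← Finset.sum_neg_distrib]
      exact Finset.sum_congr rfl fun _ _ => by ring
    rw [e, ← this]; ring
  · rintro ⟨y, hy⟩
    refine ⟨fun s => -y s, fun s hs => ?_⟩
    have := hy s hs
    have e : lee (fun s => -y s) s = -lee y s := by
      unfold lee
      rw [← Finset.sum_neg_distrib]
      exact Finset.sum_congr rfl fun _ _ => by ring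
    rw [e, ← this]

/-- The invariant may be computed with any canonical labelling. -/
theorem rasmussen_eq {c : HE n → Bool} (hc : D.Canonical c) (a b : ℤ)
    (ha : filtDeg (D := D) (genSum c 1) = a) (hb : filtDeg (D := D) (genSum c (-1)) = b) :
    D.rasmussen = ((a : ℚ) + b) / 2 := by
  unfold Diagram.rasmussen
  have h : ∃ c, D.Canonical c := ⟨c, hc⟩
  rw [dif_pos h]
  rcases canonical_eq h.choose_spec hc with e | e
  · rw [e, ha, hb]
  · have e1 : (genSum h.choose 1 : State D → ℚ) = genSum c 1 := by
      funext s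
      rw [e]
      simp only [genSum, Bool.not_not]
      ring
    have e2 : (genSum h.choose (-1) : State D → ℚ) = fun s => -genSum c (-1) s := by
      funext s
      rw [e]
      simp only [genSum, Bool.not_not]
      ring
    rw [e1, e2, filtDeg_neg, ha, hb]

end

/-! ### Chains given by lists -/

section
variable {n : ℕ} {D : Diagram n} (T : Tab D)

open Classical in
/-- the chain with given terms (smoothing, labels, coefficient) -/
noncomputable def chain (L : List (ℕ × ℕ × ℤ)) (s : State D) : ℚ :=
  (L.map fun e => if h : e.1 < 2 ^ n then (if s = mkS T e.1 h e.2.1 then (e.2.2 : ℚ) else 0)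
    else 0).sum

theorem sum_chain (L : List (ℕ × ℕ × ℤ)) (f : State D → ℚ) :
    ∑ s, chain T L s * f s = (L.map fun e => if h : e.1 < 2 ^ n then
      (e.2.2 : ℚ) * f (mkS T e.1 h e.2.1) else 0).sum := by
  classical
  induction L with
  | nil => simp [chain]
  | cons e L ih =>
    simp only [List.map_cons, List.sum_cons]
    rw [← ih]
    have : ∀ s, chain T (e :: L) s * f s = (if h : e.1 < 2 ^ n then
        (if s = mkS T e.1 h e.2.1 then (e.2.2 : ℚ) * f s else 0) else 0) + chain T L s * f s := by
      intro s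
      unfold chain
      rw [List.map_cons, List.sum_cons, add_mul]
      congr 1
      by_cases h : e.1 < 2 ^ n
      · rw [dif_pos h, dif_pos h]
        by_cases h' : s = mkS T e.1 h e.2.1
        · rw [if_pos h', if_pos h']
        · rw [if_neg h', if_neg h', zero_mul]
      · rw [dif_neg h, dif_neg h, zero_mul]
    simp_rw [this]
    rw [Finset.sum_add_distrib]
    congr 1
    by_cases h : e.1 < 2 ^ n
    · simp only [dif_pos h]
      rw [Finset.sum_ite_eq' univ (mkS T e.1 h e.2.1) (fun s => (e.2.2 : ℚ) * f s)]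
      simp
    · simp [dif_neg h]

theorem chain_ne (L : List (ℕ × ℕ × ℤ)) (s : State D) (hs : chain T L s ≠ 0) :
    ∃ e ∈ L, ∃ h : e.1 < 2 ^ n, s = mkS T e.1 h e.2.1 := by
  by_contra hc
  push Not at hc
  apply hs
  unfold chain
  apply List.sum_eq_zero
  intro x hx
  rw [List.mem_map] at hx
  obtain ⟨e, he, rfl⟩ := hx
  split_ifs with h h'
  · exact absurd h' (hc e he h)
  · rfl
  · rfl

/-- the value of the coboundary of a chain on the state with given codes -/
def cobN (ix : ℕ → ℕ → ℕ) (n : ℕ) (L : List (ℕ × ℕ × ℤ)) (R v : ℕ) : ℤ :=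
  (L.map fun e => e.2.2 * coefN ix n R v e.1 e.2.1).sum

/-- the value of the boundary of a chain on the state with given codes -/
def bdN (ix : ℕ → ℕ → ℕ) (n : ℕ) (L : List (ℕ × ℕ × ℤ)) (R v : ℕ) : ℤ :=
  (L.map fun e => e.2.2 * coefN ix n e.1 e.2.1 R v).sum

theorem cob_eq (L : List (ℕ × ℕ × ℤ)) (hL : ∀ e ∈ L, e.1 < 2 ^ n) (R : ℕ) (hR : R < 2 ^ n)
    (v : ℕ) : ∑ s', chain T L s' * coef (mkS T R hR v) s' = ((cobN T.ix n L R v : ℤ) : ℚ) := by
  rw [sum_chain]
  unfold cobN
  rw [Int.cast_list_sum, List.map_map]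
  congr 1
  apply List.map_congr_left
  intro e he
  rw [dif_pos (hL e he), coef_mkS]
  simp

theorem bd_eq (L : List (ℕ × ℕ × ℤ)) (hL : ∀ e ∈ L, e.1 < 2 ^ n) (R : ℕ) (hR : R < 2 ^ n)
    (v : ℕ) : lee (chain T L) (mkS T R hR v) = ((bdN T.ix n L R v : ℤ) : ℚ) := by
  unfold lee
  have : ∀ s, coef s (mkS T R hR v) * chain T L s = chain T L s * coef s (mkS T R hR v) :=
    fun s => mul_comm _ _
  simp_rw [this]
  rw [sum_chain]
  unfold bdN
  rw [Int.cast_list_sum, List.map_map]
  congr 1
  apply List.map_congr_left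
  intro e he
  rw [dif_pos (hL e he), coef_mkS]
  simp

/-- the canonical generator on the state with given codes; `R0` is the code of the oriented
smoothing and `cm` the code of the labelling -/
def genN (ix lead : ℕ → ℕ → ℕ) (n R0 : ℕ) (cm : ℕ → Bool) (R v : ℕ) : ℤ :=
  if R = R0 then
    (if ((range (4 * n)).filter fun j =>
      (lead R (ix R j) == j && (cm j && !(v.testBit (ix R j)))) = true).card % 2 = 0
      then 1 else -1)
  else 0

theorem gen_mkS (R0 : ℕ) (hR0 : R0 < 2 ^ n) (h0 : D.oriented = bits R0) (cm : ℕ → Bool)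
    (R : ℕ) (hR : R < 2 ^ n) (v : ℕ) :
    gen (fun h => cm (key h)) (mkS T R hR v) = ((genN T.ix T.lead n R0 cm R v : ℤ) : ℚ) := by
  classical
  have hb : (bits R : Fin n → Bool) = bits R0 ↔ R = R0 := by
    constructor
    · intro e
      apply Nat.eq_of_testBit_eq
      intro j
      by_cases hj : j < n
      · exact congrFun e ⟨j, hj⟩
      · have h1 : R.testBit j = false := Nat.testBit_lt_two_pow
          (lt_of_lt_of_le hR (Nat.pow_le_pow_right (by norm_num) (by omega)))
        have h2 : R0.testBit j = false := Nat.testBit_lt_two_pow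
          (lt_of_lt_of_le hR0 (Nat.pow_le_pow_right (by norm_num) (by omega)))
        rw [h1, h2]
    · rintro rfl; rfl
  unfold gen genN
  rw [h0]
  by_cases e : R = R0
  · have e' : (mkS T R hR v).r = bits R0 := hb.mpr e
    rw [if_pos e', if_pos e]
    have hcard : (univ.filter fun h => D.Least (mkS T R hR v).r h ∧ cm (key h) = true ∧
        (mkS T R hR v).lab h = false).card = ((range (4 * n)).filter fun j =>
      (T.lead R (T.ix R j) == j && (cm j && !(v.testBit (T.ix R j)))) = true).card := by
      rw [← card_filter_key (n := n) (fun h => D.Least (mkS T R hR v).r h ∧ cm (key h) = true ∧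
        (mkS T R hR v).lab h = false)
        (fun j => T.lead R (T.ix R j) == j && (cm j && !(v.testBit (T.ix R j))))
        (fun h => by
          simp only [mkS, least_iff T hR, Bool.and_eq_true, beq_iff_eq, Bool.not_eq_true'])]
    rw [hcard]
    generalize ((range (4 * n)).filter fun j =>
      (T.lead R (T.ix R j) == j && (cm j && !(v.testBit (T.ix R j)))) = true).card = m
    split_ifs with h
    · rw [Even.neg_one_pow (Nat.even_iff.mpr h)]
      simp
    · rw [Odd.neg_one_pow (Nat.odd_iff.mpr (by omega))]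
      simp
  · have e' : ¬ (mkS T R hR v).r = bits R0 := fun h => e (hb.mp h)
    rw [if_neg e', if_neg e]
    simp

/-- the sum of the canonical generators on the state with given codes -/
def gsN (ix lead : ℕ → ℕ → ℕ) (n R0 : ℕ) (cm : ℕ → Bool) (ε : ℤ) (R v : ℕ) : ℤ :=
  genN ix lead n R0 cm R v + ε * genN ix lead n R0 (fun j => !cm j) R v

theorem genSum_mkS (R0 : ℕ) (hR0 : R0 < 2 ^ n) (h0 : D.oriented = bits R0) (cm : ℕ → Bool)
    (ε : ℤ) (R : ℕ) (hR : R < 2 ^ n) (v : ℕ) :
    genSum (fun h => cm (key h)) ε (mkS T R hR v)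
      = ((gsN T.ix T.lead n R0 cm ε R v : ℤ) : ℚ) := by
  unfold genSum gsN
  rw [gen_mkS T R0 hR0 h0 cm R hR v]
  rw [gen_mkS T R0 hR0 h0 (fun j => !cm j) R hR v]
  push_cast
  ring

/-- All conditions on the certificates. -/
def check (ix lead : ℕ → ℕ → ℕ) (n : ℕ) (w : ℤ) (R0 : ℕ) (cm : ℕ → Bool) (ε : ℤ)
    (L Y : List (ℕ × ℕ × ℤ)) (d : ℤ) : Bool :=
  (L.all fun e => decide (e.1 < 2 ^ n)) &&
  ((Y.all fun e => decide (e.1 < 2 ^ n)) &&
  (((List.range (2 ^ n)).all fun R => (L.all fun e => !(R ||| e.1 == e.1)) ||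
    ((List.range 16).all fun v => cobN ix n L R v == 0)) &&
  ((L.all fun e => decide (qN ix lead n w e.1 e.2.1 ≤ d)) &&
  (((L.map fun e => e.2.2 * gsN ix lead n R0 cm ε e.1 e.2.1).sum != 0) &&
  ((List.range (2 ^ n)).all fun R => (List.range 16).all fun v =>
    (gsN ix lead n R0 cm ε R v == bdN ix n Y R v) || decide (d ≤ qN ix lead n w R v))))))

theorem filtDeg_of_check (ix lead : ℕ → ℕ → ℕ) (hix : T.ix = ix) (hlead : T.lead = lead) (w : ℤ)
    (hw : ((univ.filter fun i => D.positive i = true).card : ℤ)
      - 2 * (univ.filter fun i => D.positive i = false).card = w)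
    (R0 : ℕ) (hR0 : R0 < 2 ^ n) (h0 : D.oriented = bits R0) (cm : ℕ → Bool) (ε : ℤ)
    (L Y : List (ℕ × ℕ × ℤ)) (d : ℤ) (hc : check ix lead n w R0 cm ε L Y d = true) :
    filtDeg (D := D) (genSum (fun h => cm (key h)) ε) = d := by
  subst hix hlead
  simp only [check, Bool.and_eq_true, List.all_eq_true, decide_eq_true_eq, List.mem_range,
    beq_iff_eq, bne_iff_ne, Bool.or_eq_true, Bool.not_eq_true'] at hc
  obtain ⟨c1, c2, c3, c4, c5, c6⟩ := hc
  apply filtDeg_eq _ (chain T L) (chain T Y)
  · intro s
    obtain ⟨R, hR, v, hv, rfl⟩ := exists_mkS T s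
    rw [cob_eq T L c1]
    rcases c3 R hR with h | h
    · have : cobN T.ix n L R v = 0 := by
        unfold cobN
        apply List.sum_eq_zero
        intro x hx
        rw [List.mem_map] at hx
        obtain ⟨e, he, rfl⟩ := hx
        rw [coefN_eq_zero _ _ _ _ _ _ (by simpa using h e he), mul_zero]
      rw [this]
      simp
    · rw [h v hv]
      simp
  · intro s hs
    obtain ⟨e, he, h, rfl⟩ := chain_ne T L s hs
    rw [q_mkS T e.1 h e.2.1 w hw]
    exact c4 e he
  · rw [sum_chain]
    have : (L.map fun e => if h : e.1 < 2 ^ n then (e.2.2 : ℚ) *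
        genSum (fun h => cm (key h)) ε (mkS T e.1 h e.2.1) else 0).sum
        = (((L.map fun e => e.2.2 * gsN T.ix T.lead n R0 cm ε e.1 e.2.1).sum : ℤ) : ℚ) := by
      rw [Int.cast_list_sum, List.map_map]
      congr 1
      apply List.map_congr_left
      intro e he
      rw [dif_pos (c1 e he), genSum_mkS T R0 hR0 h0]
      simp
    rw [this]
    exact_mod_cast c5
  · intro s hs
    obtain ⟨R, hR, v, hv, rfl⟩ := exists_mkS T s
    rw [q_mkS T R hR v w hw] at hs
    rw [bd_eq T Y c2, genSum_mkS T R0 hR0 h0]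
    rcases c6 R hR v hv with h | h
    · rw [h]
    · omega

end

/-! ### Tables from codes -/

/-- `part` for numbers of half-edges -/
def partN (R j : ℕ) : ℕ :=
  4 * (j / 4) + (if R.testBit (j / 4) then 3 - j % 4 else
    (if j % 4 = 0 then 1 else if j % 4 = 1 then 0 else if j % 4 = 2 then 3 else 2))

theorem key_part {n : ℕ} (R : ℕ) (h : HE n) : key (part (bits R) h) = partN R (key h) := by
  obtain ⟨i, k⟩ := h
  unfold partN part key bits
  simp only
  have e : (4 * i.1 + k.1) / 4 = i.1 := by omega
  have e' : (4 * i.1 + k.1) % 4 = k.1 := by omega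
  rw [e, e']
  congr 1
  cases R.testBit i.1 <;> (fin_cases k <;> rfl)

/-- a walk along the circle through `j` in search of `t` -/
def walk (mt : ℕ → ℕ) (R t : ℕ) : ℕ → ℕ → Bool
  | 0, _ => false
  | k + 1, j => (j == t) || ((partN R j == t) || walk mt R t k (mt (partN R j)))

section
variable {n : ℕ} {D : Diagram n}

theorem walk_same (mt : ℕ → ℕ) (hm : ∀ h, key (D.mate h) = mt (key h)) (R : ℕ) (h' : HE n) :
    ∀ (k : ℕ) (h : HE n), walk mt R (key h') k (key h) = true → D.Same (bits R) h h' := by
  intro k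
  induction k with
  | zero => intro h hw; simp [walk] at hw
  | succ k ih =>
    intro h hw
    unfold walk at hw
    rw [← key_part (n := n), ← hm] at hw
    simp only [Bool.or_eq_true, beq_iff_eq] at hw
    rcases hw with e | e | e
    · rw [key_inj e]; exact fun _ _ _ => rfl
    · rw [← key_inj e]
      intro f _ h2
      exact (h2 h).symm
    · have := ih _ e
      refine Same.trans' ?_ this
      intro f h1 h2
      rw [h1, h2]

/-- the table made from functions -/
def mkTab (mt : ℕ → ℕ) (ix lead : ℕ → ℕ → ℕ) (hm : ∀ h, key (D.mate h) = mt (key h))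
    (hc : ((List.range (2 ^ n)).all fun R => (List.range (4 * n)).all fun j =>
      (ix R (mt j) == ix R j) && ((ix R (partN R j) == ix R j) && (decide (ix R j < 4) &&
      (decide (lead R (ix R j) ≤ j) && walk mt R (lead R (ix R j)) (2 * n) j)))) = true) :
    Tab D := by
  simp only [List.all_eq_true, List.mem_range, Bool.and_eq_true, decide_eq_true_eq,
    beq_iff_eq] at hc
  exact {
    ix := ix
    lead := lead
    ix_mate := fun R hR h => by
      rw [hm]
      exact (hc R hR (key h) (key_lt h)).1
    ix_part := fun R hR h => by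
      rw [key_part]
      exact (hc R hR (key h) (key_lt h)).2.1
    ix_lt := fun R hR h => (hc R hR (key h) (key_lt h)).2.2.1
    lead_le := fun R hR h => (hc R hR (key h) (key_lt h)).2.2.2.1
    reach := fun R hR h h' e => by
      have := (hc R hR (key h) (key_lt h)).2.2.2.2
      rw [← e] at this
      exact walk_same mt hm R h' _ h this }

end

end Pool.Agent.H762.LeeS
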