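import Pool.Agent.H762.ThreeFill

set_option autoImplicit false
set_option linter.unusedSectionVars false

/-!
# Three-sheeted tangles with pieces: the proof
-/

namespace Pool.Agent.H762.Three

open Pool.Agent.Y479.LS Pool.Agent.Q184.TP
open Pool.Agent.Q138.LO (Piece Filling Good)
open Pool.Agent.Q184.TP.Tangle (Std Rig Pos NN Sat fam pwr)

section conj

variable {X : Type*} [LinearOrder X] {κ ν a : ZMod 3 → Aut X}

/-- conjugation of a family -/
def cj {G : Type*} [Group G] (ν a : ZMod 3 → G) : ZMod 3 → G :=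
  fun i => ν i * a i * (ν (i + 1))⁻¹

theorem cj_cyc {G : Type*} [Group G] {ν a : ZMod 3 → G} (h : Cyc a) : Cyc (cj ν a) := by
  intro i
  show ν i * a i * (ν (i + 1))⁻¹ * (ν (i + 1) * a (i + 1) * (ν (i + 1 + 1))⁻¹) *
    (ν (i + 2) * a (i + 2) * (ν (i + 2 + 1))⁻¹) = 1
  rw [i11, i21]
  have h1 := h i
  have : ν i * a i * (ν (i + 1))⁻¹ * (ν (i + 1) * a (i + 1) * (ν (i + 2))⁻¹) *
      (ν (i + 2) * a (i + 2) * (ν i)⁻¹) = ν i * (a i * a (i + 1) * a (i + 2)) * (ν i)⁻¹ := by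
    group
  rw [this, h1, mul_one, mul_inv_cancel]

theorem cj_core (h1' : ∀ i x, κ i x ≤ x → ν i x ≤ x) (h2' : ∀ i x, x ≤ κ i x → x ≤ ν i x)
    (i : ZMod 3) (p r : X) (h1 : κ i r ≤ r) (h2 : p ≤ κ (i + 1) p)
    (h3 : a i p ≤ r) (h4 : r ≤ cj ν a i p) :
    a i p = r ∧ cj ν a i p = r ∧ ν i r = r ∧ ν (i + 1) p = p := by
  have hs : cj ν a i p = ν i (a i ((ν (i + 1))⁻¹ p)) := rfl
  rw [hs] at h4 ⊢
  have g1 : (ν (i + 1))⁻¹ p ≤ p := (inv_le_iff _ _ _).mpr (h2' _ _ h2)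
  have g2 : a i ((ν (i + 1))⁻¹ p) ≤ r := ((Aut.le_iff _).mpr g1).trans h3
  have g3 : ν i r ≤ r := h1' _ _ h1
  have g4 : ν i (a i ((ν (i + 1))⁻¹ p)) ≤ ν i r := (Aut.le_iff _).mpr g2
  have e1 : ν i r = r := le_antisymm g3 (h4.trans g4)
  have e2 : a i ((ν (i + 1))⁻¹ p) = r := by
    refine le_antisymm g2 ?_
    rw [← Aut.le_iff (ν i), e1]
    exact h4
  have e3 : a i p = r := le_antisymm h3 (by rw [← e2]; exact (Aut.le_iff _).mpr g1)
  have e4 : (ν (i + 1))⁻¹ p = p := by rw [← Aut.inj (a i), e2, e3]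
  have e5 : ν (i + 1) p = p := by
    rw [← Aut.inj (ν (i + 1))⁻¹, Aut.inv_self, e4]
  exact ⟨e3, by rw [e2, e1], e1, e5⟩

theorem cj_dual : dualF (cj ν a) = cj (dualF ν) (dualF a) := by
  funext i
  show Aut.dual (ν i * a i * (ν (i + 1))⁻¹) =
    Aut.dual (ν i) * Aut.dual (a i) * (Aut.dual (ν (i + 1)))⁻¹
  rw [map_mul, map_mul, map_inv]

theorem cj_W (h1' : ∀ i x, κ i x ≤ x → ν i x ≤ x) (h2' : ∀ i x, x ≤ κ i x → x ≤ ν i x) :
    W κ a (cj ν a) := by
  constructor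
  · intro i p r h1 h2 h3 h4
    obtain ⟨e1, e2, -, -⟩ := cj_core h1' h2' i p r h1 h2 h3 h4
    exact ⟨e1, e2⟩
  · have h : W1 (dualF κ) (dualF a) (cj (dualF ν) (dualF a)) := by
      intro i p r h1 h2 h3 h4
      obtain ⟨e1, e2, -, -⟩ := cj_core (κ := dualF κ) (ν := dualF ν) (a := dualF a)
        (fun i x h => h2' i x h) (fun i x h => h1' i x h) i p r h1 h2 h3 h4
      exact ⟨e1, e2⟩
    rw [← cj_dual] at h
    exact h

theorem cj_P (h1' : ∀ i x, κ i x ≤ x → ν i x ≤ x) (h2' : ∀ i x, x ≤ κ i x → x ≤ ν i x)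
    (h3' : ∀ i x, ν i x = x → κ i x = x) : P κ a (cj ν a) := by
  constructor
  · intro i p r h1 h2 h3 h4
    obtain ⟨e1, e2, e3, e4⟩ := cj_core h1' h2' i p r h1 h2 h3 h4
    exact ⟨e1, e2, h3' _ _ e3, h3' _ _ e4⟩
  · have h : P1 (dualF κ) (dualF a) (cj (dualF ν) (dualF a)) := by
      intro i p r h1 h2 h3 h4
      obtain ⟨e1, e2, e3, e4⟩ := cj_core (κ := dualF κ) (ν := dualF ν) (a := dualF a)
        (fun i x h => h2' i x h) (fun i x h => h1' i x h) i p r h1 h2 h3 h4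
      exact ⟨e1, e2, h3' _ _ e3, h3' _ _ e4⟩
    rw [← cj_dual] at h
    exact P1.undual h

end conj

/-! ### A region with pieces -/

section region

variable (Q : ZMod 3 → Piece) {X : Type} [LinearOrder X] (φ : FreeGroup (region Q).gen →* Aut X)

/-- the action of a piece -/
noncomputable def act (hφ : (region Q).Sat φ) (i : ZMod 3) : (Q i).K →* Aut X :=
  MonoidHom.mk' (fun k => φ (el Q i k)) (by
    intro k k'
    have h : ∀ φ : FreeGroup (Gen Q) →* Aut X, φ (el Q i k * el Q i k' * (el Q i (k * k'))⁻¹) = 1 →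
        φ (el Q i (k * k')) = φ (el Q i k) * φ (el Q i k') := by
      intro φ h
      rw [map_mul, map_mul, map_inv, mul_inv_eq_one] at h
      exact h.symm
    exact h φ (hφ _ (Or.inr (Or.inr (Or.inl ⟨i, k, k', rfl⟩)))))

theorem act_u (hφ : (region Q).Sat φ) (i : ZMod 3) :
    act Q φ hφ i (Q i).u = (region Q).loop φ i := by
  have h : ∀ φ : FreeGroup (Gen Q) →* Aut X, φ (up Q i * (lo Q i)⁻¹ * (el Q i (Q i).u)⁻¹) = 1 →
      φ (el Q i (Q i).u) = φ (up Q i) * (φ (lo Q i))⁻¹ := by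
    intro φ h
    rw [map_mul, map_mul, map_inv, map_inv, mul_inv_eq_one] at h
    exact h.symm
  exact h φ (hφ _ (Or.inr (Or.inr (Or.inr (Or.inl ⟨i, rfl⟩)))))

theorem act_comm (hφ : (region Q).Sat φ) (i : ZMod 3) :
    act Q φ hφ i (Q i).u * act Q φ hφ i (Q i).v = act Q φ hφ i (Q i).v * act Q φ hφ i (Q i).u := by
  have h : ∀ φ : FreeGroup (Gen Q) →* Aut X,
      φ (el Q i (Q i).u * el Q i (Q i).v * (el Q i (Q i).u)⁻¹ * (el Q i (Q i).v)⁻¹) = 1 →
      φ (el Q i (Q i).u) * φ (el Q i (Q i).v) = φ (el Q i (Q i).v) * φ (el Q i (Q i).u) := by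
    intro φ h
    rw [map_mul, map_mul, map_mul, map_inv, map_inv, mul_inv_eq_one, mul_inv_eq_iff_eq_mul] at h
    exact h
  exact h φ (hφ _ (Or.inr (Or.inr (Or.inr (Or.inr ⟨i, rfl⟩)))))

theorem region_ne (hφ : (region Q).Sat φ) :
    fam φ (region Q).ne = cj (fun i => act Q φ hφ i (Q i).v) (fam φ (region Q).nw) := by
  funext i
  have h : ∀ φ : FreeGroup (Gen Q) →* Aut X,
      φ (el Q i (Q i).v * up Q i * (el Q (i + 1) (Q (i + 1)).v)⁻¹) =
      φ (el Q i (Q i).v) * φ (up Q i) * (φ (el Q (i + 1) (Q (i + 1)).v))⁻¹ := by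
    intro φ
    rw [map_mul, map_mul, map_inv]
  exact h φ

theorem region_se (hφ : (region Q).Sat φ) :
    fam φ (region Q).se = cj (fun i => act Q φ hφ i (Q i).v) (fam φ (region Q).sw) := by
  funext i
  have h : ∀ φ : FreeGroup (Gen Q) →* Aut X,
      φ (el Q i (Q i).v * lo Q i * (el Q (i + 1) (Q (i + 1)).v)⁻¹) =
      φ (el Q i (Q i).v) * φ (lo Q i) * (φ (el Q (i + 1) (Q (i + 1)).v))⁻¹ := by
    intro φ
    rw [map_mul, map_mul, map_inv]
  exact h φ

theorem region_std : Std (region Q) := by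
  have h1 : ∀ (X : Type) [LinearOrder X] (φ : FreeGroup (region Q).gen →* Aut X),
      (region Q).Sat φ → Cyc (fam φ (region Q).nw) := by
    intro X _ φ hφ
    apply Cyc.of_zero
    have h : ∀ φ : FreeGroup (Gen Q) →* Aut X,
        φ (up Q 0 * up Q 1 * up Q 2) = φ (up Q 0) * φ (up Q 1) * φ (up Q 2) := fun φ => by
      rw [map_mul, map_mul]
    exact (h φ).symm.trans (hφ _ (Or.inl rfl))
  have h2 : ∀ (X : Type) [LinearOrder X] (φ : FreeGroup (region Q).gen →* Aut X),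
      (region Q).Sat φ → Cyc (fam φ (region Q).sw) := by
    intro X _ φ hφ
    apply Cyc.of_zero
    have h : ∀ φ : FreeGroup (Gen Q) →* Aut X,
        φ (lo Q 0 * lo Q 1 * lo Q 2) = φ (lo Q 0) * φ (lo Q 1) * φ (lo Q 2) := fun φ => by
      rw [map_mul, map_mul]
    exact (h φ).symm.trans (hφ _ (Or.inr (Or.inl rfl)))
  refine ⟨h1, h2, ?_, ?_, ?_⟩
  · intro X _ φ hφ
    rw [region_ne Q φ hφ]
    exact cj_cyc (h1 X φ hφ)
  · intro X _ φ hφ
    rw [region_se Q φ hφ]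
    exact cj_cyc (h2 X φ hφ)
  · intro X _ φ hφ i
    have e1 := congrFun (region_ne Q φ hφ) i
    have e2 := congrFun (region_se Q φ hφ) i
    have e3 := act_comm Q φ hφ i
    rw [act_u] at e3
    change φ ((region Q).ne i) = act Q φ hφ i (Q i).v * φ ((region Q).nw i) *
      (act Q φ hφ (i + 1) (Q (i + 1)).v)⁻¹ at e1
    change φ ((region Q).se i) = act Q φ hφ i (Q i).v * φ ((region Q).sw i) *
      (act Q φ hφ (i + 1) (Q (i + 1)).v)⁻¹ at e2
    change (φ ((region Q).nw i) * (φ ((region Q).sw i))⁻¹) * act Q φ hφ i (Q i).v =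
      act Q φ hφ i (Q i).v * (φ ((region Q).nw i) * (φ ((region Q).sw i))⁻¹) at e3
    rw [e1, e2]
    generalize φ ((region Q).nw i) = x at e3 ⊢
    generalize φ ((region Q).sw i) = y at e3 ⊢
    generalize act Q φ hφ i (Q i).v = v at e3 ⊢
    generalize (act Q φ hφ (i + 1) (Q (i + 1)).v)⁻¹ = w
    have : v * x * w * (v * y * w)⁻¹ = v * (x * y⁻¹) * v⁻¹ := by group
    rw [this, ← e3]
    group

theorem region_sh (hφ : (region Q).Sat φ) (e z : ℤ) :
    sh (pwr ((region Q).loop φ) e) z (fam φ (region Q).ne) =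
      cj (fun i => act Q φ hφ i ((Q i).u ^ (e * z) * (Q i).v)) (fam φ (region Q).nw) := by
  rw [region_ne Q φ hφ]
  funext i
  show ((region Q).loop φ i ^ e) ^ z * (act Q φ hφ i (Q i).v * fam φ (region Q).nw i *
    (act Q φ hφ (i + 1) (Q (i + 1)).v)⁻¹) * ((region Q).loop φ (i + 1) ^ e) ^ (-z) =
    act Q φ hφ i ((Q i).u ^ (e * z) * (Q i).v) * fam φ (region Q).nw i *
    (act Q φ hφ (i + 1) ((Q (i + 1)).u ^ (e * z) * (Q (i + 1)).v))⁻¹
  rw [map_mul, map_mul, map_zpow, map_zpow, act_u, act_u, ← zpow_mul, ← zpow_mul, mul_neg,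
    zpow_neg]
  group

theorem pwr_act (hφ : (region Q).Sat φ) (e : ℤ) (i : ZMod 3) :
    pwr ((region Q).loop φ) e i = act Q φ hφ i ((Q i).u ^ e) := by
  rw [map_zpow, act_u]
  rfl

theorem region_nn {e z : ℤ} {s : Bool} (h : ∀ i, Bound e z s (Q i)) : NN e z (region Q) := by
  intro X _ φ hφ
  rw [region_sh Q φ hφ]
  refine cj_W (fun i x hx => ?_) (fun i x hx => ?_)
  · rw [pwr_act Q φ hφ] at hx
    exact ((h i).1 X (act Q φ hφ i) x).1 hx
  · rw [pwr_act Q φ hφ] at hx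
    exact ((h i).1 X (act Q φ hφ i) x).2 hx

theorem region_pos {e z : ℤ} (h : ∀ i, Bound e z true (Q i)) : Pos e z (region Q) := by
  intro X _ φ hφ
  rw [region_sh Q φ hφ]
  refine cj_P (fun i x hx => ?_) (fun i x hx => ?_) (fun i x hx => ?_)
  · rw [pwr_act Q φ hφ] at hx
    exact ((h i).1 X (act Q φ hφ i) x).1 hx
  · rw [pwr_act Q φ hφ] at hx
    exact ((h i).1 X (act Q φ hφ i) x).2 hx
  · have h1 := (h i).2.1 rfl X (act Q φ hφ i) x hx
    have h2 := act_u Q φ hφ i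
    change act Q φ hφ i (Q i).u x = x at h1
    have h3 : (region Q).loop φ i x = x := by rw [← h2]; exact h1
    exact zpow_fix h3 e

theorem region_rig {e z : ℤ} {s : Bool} (h : ∀ i, Bound e z s (Q i)) : Rig (region Q) := by
  intro X _ φ hφ h1 h2
  have hu : ∀ i x, act Q φ hφ i (Q i).u x = x := by
    intro i x
    rw [act_u]
    show (φ ((region Q).nw i) * (φ ((region Q).sw i))⁻¹) x = x
    rw [h1, h2]
    simp only [inv_one, mul_one, Aut.one_apply]
  have hup : ∀ i x (n : ℤ), act Q φ hφ i ((Q i).u ^ n) x = x := by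
    intro i x n
    rw [map_zpow]
    exact zpow_fix (hu i x) n
  have hv : ∀ i x, act Q φ hφ i (Q i).v x = x := by
    intro i x
    have b1 := ((h i).1 X (act Q φ hφ i) x).1 (hup i x e).le
    have b2 := ((h i).1 X (act Q φ hφ i) x).2 (hup i x e).ge
    have b3 := le_antisymm b1 b2
    have b4 : act Q φ hφ i ((Q i).u ^ (e * z) * (Q i).v) =
      act Q φ hφ i ((Q i).u ^ (e * z)) * act Q φ hφ i (Q i).v := map_mul _ _ _
    have b5 : (act Q φ hφ i ((Q i).u ^ (e * z)) * act Q φ hφ i (Q i).v) x = x := by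
      rw [← b4]; exact b3
    rw [Aut.mul_apply, hup] at b5
    exact b5
  have hk : ∀ i k, act Q φ hφ i k = 1 := fun i k => Aut.ext' fun x =>
    (h i).2.2 X (act Q φ hφ i) x (hu i x) (hv i x) k
  refine Tangle.hom_one φ fun x => ?_
  rcases x with ⟨s, i⟩ | ⟨i, k⟩
  · cases s
    · exact h1 i
    · exact h2 i
  · exact hk i k

end region

/-! ### All tangles -/

theorem nn_pos {e z : ℤ} {S : Tangle} (h : NN e z S) : Pos e (z + 1) S := by
  intro X _ φ hφ
  have h1 := (h X φ hφ).sh 1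
  rw [sh_sh, add_comm 1 z] at h1
  exact (twist_P (κ := pwr (S.loop φ) e) (a := fam φ S.nw) 1 le_rfl).trans_weak h1

theorem low_main {e z : ℤ} {s : Bool} {S : Tangle} (h : Low e s z S) (he : e = 1 ∨ e = -1) :
    Std S ∧ Rig S ∧ NN e z S ∧ (s = true → Pos e z S) := by
  induction h with
  | region e z s P h =>
    have h' : ∀ i, Bound e z s (P i) := fun i => (h i).bound he
    refine ⟨region_std P, region_rig P h', region_nn P h', ?_⟩
    intro hs
    subst hs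
    exact region_pos P h'
  | @add e z z' s s' S T _ _ ih1 ih2 =>
    obtain ⟨a1, a2, a3, a4⟩ := ih1 he
    obtain ⟨b1, b2, b3, b4⟩ := ih2 he
    refine ⟨Tangle.add_std a1 b1, Tangle.add_rig a2 b2, Tangle.add_nn a1 a3 b3, ?_⟩
    intro hs
    rw [Bool.or_eq_true] at hs
    rcases hs with hs | hs
    · exact Tangle.add_pos a1 (a4 hs) b3
    · exact Tangle.add_pos' a1 a3 (b4 hs)
  | @inv e S _ ih =>
    obtain ⟨a1, a2, a3, a4⟩ := ih he
    have h := Tangle.inv_pos a1 he (a4 rfl)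
    exact ⟨Tangle.inv_std a1, Tangle.inv_rig a1 a2 he (a4 rfl), h.nn, fun _ => h⟩
  | @absorb e s S _ ih =>
    have he' : e = 1 ∨ e = -1 := by omega
    obtain ⟨a1, a2, a3, a4⟩ := ih he'
    have h := Tangle.inv_absorb a1 he' a3
    have h' : Pos e 0 S := by simpa using nn_pos a3
    exact ⟨Tangle.inv_std a1, Tangle.inv_rig a1 a2 he' h', h.nn, fun _ => h⟩
  | @weaken e z s S _ ih =>
    obtain ⟨a1, a2, a3, a4⟩ := ih he
    have h := nn_pos a3
    exact ⟨a1, a2, h.nn, fun _ => h⟩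

end Pool.Agent.H762.Three
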