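import Pool.Graph.R_pool_sql_team_seeded_3997aac3.Q184.TP.Tang
import Pool.Graph.R_pool_sql_team_seeded_2aa45f1a.Q138.LO.Glue

set_option autoImplicit false
set_option linter.unusedSectionVars false

/-!
# Three-sheeted tangles with pieces

A twist region of a tangle consists of two antiparallel strings. A circle around the two strings has
three lifts to the 3-fold cyclic cover. Here the solid tori along these three lifts are replaced by
arbitrary pieces, which may be different on the three sheets.
-/

namespace Pool.Agent.H762.Three

open Pool.Agent.Y479.LS Pool.Agent.Q184.TP Pool.Agent.Q138.LO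

/-- The generators: the lifts of the meridians of the two strings (`false`: upper string, `true`: lower
string), and the elements of the three pieces. -/
abbrev Gen (P : ZMod 3 → Piece) : Type := (Bool × ZMod 3) ⊕ (Σ i, (P i).K)

/-- The lift of the meridian of the upper string that begins in the sheet `i`. -/
def up (P : ZMod 3 → Piece) (i : ZMod 3) : FreeGroup (Gen P) := FreeGroup.of (Sum.inl (false, i))

/-- The lift of the meridian of the lower string that begins in the sheet `i`. -/
def lo (P : ZMod 3 → Piece) (i : ZMod 3) : FreeGroup (Gen P) := FreeGroup.of (Sum.inl (true, i))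

/-- The element `k` of the piece on the sheet `i`. -/
def el (P : ZMod 3 → Piece) (i : ZMod 3) (k : (P i).K) : FreeGroup (Gen P) :=
  FreeGroup.of (Sum.inr ⟨i, k⟩)

/-- The relators: the product of the three lifts of a meridian (branching), the multiplication tables
of the pieces; on the sheet `i`, the loop around both strings (the longitude of the lift of the circle)
is the element `u` of the piece; it commutes with the element `v` (the meridian of the lift of the
circle). -/
def pieceRel (P : ZMod 3 → Piece) : Set (FreeGroup (Gen P)) :=
  {r | r = up P 0 * up P 1 * up P 2 ∨ r = lo P 0 * lo P 1 * lo P 2 ∨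
    (∃ i k k', r = el P i k * el P i k' * (el P i (k * k'))⁻¹) ∨
    (∃ i, r = up P i * (lo P i)⁻¹ * (el P i (P i).u)⁻¹) ∨
    (∃ i, r = el P i (P i).u * el P i (P i).v * (el P i (P i).u)⁻¹ * (el P i (P i).v)⁻¹)}

/-- Two antiparallel strings with a circle around them; the solid tori along the three lifts of the
circle are replaced by the pieces `P 0`, `P 1`, `P 2`. From the western to the eastern end the
meridians are conjugated by the elements `v` of the pieces. If `P i` is the solid torus with `u = 1`,
`v = a` in `ℤ` for all `i` then this is a twist region with `2 |a|` crossings. -/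
def region (P : ZMod 3 → Piece) : Tangle where
  gen := Gen P
  rel := pieceRel P
  nw := up P
  sw := lo P
  ne := fun i => el P i (P i).v * up P i * (el P (i + 1) (P (i + 1)).v)⁻¹
  se := fun i => el P i (P i).v * lo P i * (el P (i + 1) (P (i + 1)).v)⁻¹

/-- In every action on a linear order, `b` does not move up a point which `a` does not move up, and
does not move down a point which `a` does not move down. -/
def Follows {K : Type} [Group K] (a b : K) : Prop :=
  ∀ (X : Type) [LinearOrder X] (φ : K →* (X ≃o X)) (x : X),
    (φ a x ≤ x → φ b x ≤ x) ∧ (x ≤ φ a x → x ≤ φ b x)

/-- In every action on a linear order, the points fixed by `a` are fixed by `b`. -/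
def Fixes {K : Type} [Group K] (a b : K) : Prop :=
  ∀ (X : Type) [LinearOrder X] (φ : K →* (X ≃o X)) (x : X), φ a x = x → φ b x = x

/-- In every action on a linear order, the points fixed by `a` and `b` are fixed by all elements. -/
def Rigid {K : Type} [Group K] (a b : K) : Prop :=
  ∀ (X : Type) [LinearOrder X] (φ : K →* (X ≃o X)) (x : X),
    φ a x = x → φ b x = x → ∀ k, φ k x = x

/-- The slope of the piece is at least `-z` for the sign `e = 1`, at most `z` for the sign `e = -1`:
in every action on a linear order `u ^ (e * z) * v` moves no point in the direction opposite to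
`u ^ e`; and if `s` is true it moves every point which is moved by `u`. The points fixed by `u` and `v`
are fixed by the piece. -/
def Bound (e z : ℤ) (s : Bool) (P : Piece) : Prop :=
  Follows (P.u ^ e) (P.u ^ (e * z) * P.v) ∧ (s = true → Fixes (P.u ^ (e * z) * P.v) P.u) ∧
    Rigid P.u P.v

/-- The solid torus whose meridian disc is bounded by `u ^ (-q) * v ^ p` (for coprime `p`, `q`; the
slope is `q / p`): `u` and `v` are the `p`-th and the `q`-th power of the core. If the slope is the
integer `a` on all three sheets then this is the twist region with `2 |a|` crossings. -/
def torus (p q : ℤ) : Piece :=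
  ⟨Multiplicative ℤ, Multiplicative.ofAdd p, Multiplicative.ofAdd q⟩

/-- The piece `F` with another basis of the fundamental group of the boundary, such that the two
distinguished peripheral elements of `F` are `u ^ e` and `u ^ (e * z) * v`
(for `e = 1` or `e = -1`). -/
def shifted (e z : ℤ) (F : Filling) : Piece :=
  ⟨F.piece.K, F.piece.u ^ e, F.piece.u ^ (-z) * F.piece.v⟩

/-- Pieces of slope at least `-z` (more than `-z` if `s` is true) for `e = 1`, at most `z` (less than
`z` if `s` is true) for `e = -1`. -/
inductive Admissible (e z : ℤ) (s : Bool) : Piece → Prop
  /-- the solid torus of slope `q / p` with `-z ≤ q / p` for `e = 1`, `q / p ≤ z` for `e = -1` -/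
  | torus (p q : ℤ) (hp : 1 ≤ p) (h : 0 ≤ p * z + e * q) (hs : s = true → 0 < p * z + e * q) :
      Admissible e z s (torus p q)
  /-- solid tori, twisted interval bundles over the Klein bottle and Seifert fibred spaces over the
  disc, for which `u ^ e` and `u ^ (e * z) * v` are positive -/
  | shifted (F : Filling) (h : F.Positive) : Admissible e z s (shifted e z F)
  /-- all other pieces with this bound -/
  | other (P : Piece) (h : Bound e z s P) : Admissible e z s P

/-- `Low e s z S`: the three-sheeted tangle `S` is at least `-z` (more than `-z` if `s` is true) if
`e = 1`, and at most `z` (less than `z` if `s` is true) if `e = -1`. -/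
inductive Low : ℤ → Bool → ℤ → Tangle → Prop
  /-- a region with three pieces -/
  | region (e z : ℤ) (s : Bool) (P : ZMod 3 → Piece) (h : ∀ i, Admissible e z s (P i)) :
      Low e s z (region P)
  /-- sums: the bounds are added -/
  | add {e z z' : ℤ} {s s' : Bool} {S T : Tangle} (hS : Low e s z S) (hT : Low e s' z' T) :
      Low e (s || s') (z + z') (S.add T)
  /-- the inverse of a positive tangle is positive -/
  | inv {e : ℤ} {S : Tangle} (h : Low e true 0 S) : Low e true 0 S.inv
  /-- if `S` is at least one then its inverse is less than one -/
  | absorb {e : ℤ} {s : Bool} {S : Tangle} (h : Low e s (-1) S) : Low (-e) true 1 S.inv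
  /-- a weaker bound -/
  | weaken {e z : ℤ} {s : Bool} {S : Tangle} (h : Low e s z S) : Low e true (z + 1) S

end Pool.Agent.H762.Three
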