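import Pool.Agent.H762.ThreeDefs

set_option autoImplicit false
set_option linter.unusedSectionVars false

/-!
# Three-sheeted tangles with pieces: standard pieces
-/

namespace Pool.Agent.H762.Three

open Pool.Agent.Y479.LS Pool.Agent.Q184.TP
open Pool.Agent.Q138.LO (Piece Filling Good)

theorem zpow_fix {X : Type*} [LinearOrder X] {f : Aut X} {x : X} (h : f x = x) (e : ℤ) : (f ^ e) x = x := by
  have h' : f⁻¹ x = x := by
    have := Aut.inv_self f x
    rwa [h] at this
  have hn : ∀ (g : Aut X), g x = x → ∀ n : ℕ, (g ^ n) x = x := by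
    intro g hg n
    induction n with
    | zero => rfl
    | succ n ih => rw [pow_succ, Aut.mul_apply, hg, ih]
  obtain ⟨n, rfl | rfl⟩ := Int.eq_nat_or_neg e
  · rw [zpow_natCast]; exact hn f h n
  · rw [zpow_neg, zpow_natCast, ← inv_pow]; exact hn _ h' n

section

variable {X : Type} [LinearOrder X]

theorem lt_pow (f : Aut X) {x : X} (h : x < f x) (n : ℕ) (hn : 1 ≤ n) : x < (f ^ n) x := by
  obtain ⟨k, rfl⟩ : ∃ k, n = k + 1 := ⟨n - 1, by omega⟩
  rw [pow_succ', Aut.mul_apply]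
  exact h.trans_le ((Aut.le_iff f).mpr (le_pow_iff f h.le k))

theorem pow_lt' (f : Aut X) {x : X} (h : f x < x) (n : ℕ) (hn : 1 ≤ n) : (f ^ n) x < x := by
  obtain ⟨k, rfl⟩ : ∃ k, n = k + 1 := ⟨n - 1, by omega⟩
  rw [pow_succ', Aut.mul_apply]
  exact ((Aut.le_iff f).mpr (pow_le_iff f h.le k)).trans_lt h

theorem of_pow_le (f : Aut X) {x : X} {n : ℕ} (hn : 1 ≤ n) (h : (f ^ n) x ≤ x) : f x ≤ x := by
  by_contra h'
  exact absurd h (not_le.mpr (lt_pow f (not_le.mp h') n hn))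

theorem of_le_pow (f : Aut X) {x : X} {n : ℕ} (hn : 1 ≤ n) (h : x ≤ (f ^ n) x) : x ≤ f x := by
  by_contra h'
  exact absurd h (not_le.mpr (pow_lt' f (not_le.mp h') n hn))

/-- the statement of `Bound` for one action -/
def BoundAt {K : Type} [Group K] (e z : ℤ) (s : Bool) (u v : K) (φ : K →* Aut X) (x : X) : Prop :=
  (φ (u ^ e) x ≤ x → φ (u ^ (e * z) * v) x ≤ x) ∧
    (x ≤ φ (u ^ e) x → x ≤ φ (u ^ (e * z) * v) x) ∧
    (s = true → φ (u ^ (e * z) * v) x = x → φ u x = x) ∧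
    (φ u x = x → φ v x = x → ∀ k, φ k x = x)

theorem boundAt_core {K : Type} [Group K] {e z p q : ℤ} {s : Bool} {u v : K} (c : K)
    (hu : u = c ^ p) (hv : v = c ^ q) (hc : ∀ k : K, ∃ m : ℤ, k = c ^ m)
    (he : e = 1 ∨ e = -1) (hp : 1 ≤ p)
    (h : 0 ≤ p * z + e * q) (hs : s = true → 0 < p * z + e * q) (φ : K →* Aut X) (x : X) :
    BoundAt e z s u v φ x := by
  obtain ⟨P, hP⟩ := Int.eq_ofNat_of_zero_le (by omega : 0 ≤ p)
  obtain ⟨M, hM⟩ := Int.eq_ofNat_of_zero_le h
  have hP1 : 1 ≤ P := by omega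
  have hee : e * e = 1 := by rcases he with rfl | rfl <;> norm_num
  let k : Aut X := φ c ^ e
  have hgk : φ c = k ^ e := by
    show φ c = (φ c ^ e) ^ e
    rw [← zpow_mul, hee, zpow_one]
  have e1 : φ (u ^ e) = k ^ P := by
    rw [hu, map_zpow, map_zpow, hP, ← zpow_mul, mul_comm, zpow_mul, zpow_natCast]
  have e2 : φ (u ^ (e * z) * v) = k ^ M := by
    rw [hu, hv, ← zpow_mul, ← zpow_add, map_zpow]
    have h1 : p * (e * z) + q = e * (M : ℤ) := by
      rw [← hM, mul_add, ← mul_assoc e e q, hee]; ring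
    rw [h1, zpow_mul, zpow_natCast]
  have e3 : φ u = k ^ (e * P) := by
    rw [hu, map_zpow, hgk, hP, ← zpow_mul]
  have fixk : ∀ m : ℤ, k x = x → (k ^ m) x = x := fun m hk => zpow_fix hk m
  have fixk' : (k ^ P) x = x → k x = x := fun hk =>
    le_antisymm (of_pow_le k hP1 hk.le) (of_le_pow k hP1 hk.ge)
  refine ⟨?_, ?_, ?_, ?_⟩
  · intro h1
    rw [e1] at h1
    rw [e2]
    exact pow_le_iff k (of_pow_le k hP1 h1) M
  · intro h1
    rw [e1] at h1
    rw [e2]
    exact le_pow_iff k (of_le_pow k hP1 h1) M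
  · intro hs' h1
    have hM1 : 1 ≤ M := by have := hs hs'; omega
    rw [e2] at h1
    rw [e3]
    exact fixk _ (le_antisymm (of_pow_le k hM1 h1.le) (of_le_pow k hM1 h1.ge))
  · intro h1 _ w
    rw [e3] at h1
    have h2 : (k ^ P) x = x := by
      have := zpow_fix h1 e
      rw [← zpow_mul] at this
      have h3 : e * (P : ℤ) * e = P := by rw [mul_right_comm, hee, one_mul]
      rw [h3, zpow_natCast] at this
      exact this
    obtain ⟨m, rfl⟩ := hc w
    rw [map_zpow, hgk, ← zpow_mul]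
    exact fixk _ (fixk' h2)

theorem boundAt_shifted {K : Type} [Group K] {e z : ℤ} {s : Bool} {u v : K}
    (he : e = 1 ∨ e = -1) (φ : K →* Aut X) (x : X)
    (h1 : φ u x ≤ x ↔ φ v x ≤ x) (h2 : x ≤ φ u x ↔ x ≤ φ v x)
    (h3 : φ u x = x → ∀ k, φ k x = x) : BoundAt e z s (u ^ e) (u ^ (-z) * v) φ x := by
  have hee : e * e = 1 := by rcases he with rfl | rfl <;> norm_num
  have e1 : (u ^ e) ^ e = u := by rw [← zpow_mul, hee, zpow_one]
  have e2 : (u ^ e) ^ (e * z) * (u ^ (-z) * v) = v := by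
    rw [← zpow_mul, ← mul_assoc, ← zpow_add]
    have : e * (e * z) + -z = 0 := by rw [← mul_assoc, hee, one_mul, add_neg_cancel]
    rw [this, zpow_zero, one_mul]
  unfold BoundAt
  rw [e1, e2]
  refine ⟨h1.mp, h2.mp, ?_, ?_⟩
  · intro _ h4
    have h5 : φ u x = x := le_antisymm (h1.mpr h4.le) (h2.mpr h4.ge)
    exact h3 h5 _
  · intro h4 _
    have h5 : φ u x = x := by
      have h6 := zpow_fix h4 e
      rw [← map_zpow, e1] at h6
      exact h6
    exact h3 h5

end

theorem bound_of {e z : ℤ} {s : Bool} {P : Piece}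
    (h : ∀ (X : Type) [LinearOrder X] (φ : P.K →* Aut X) (x : X), BoundAt e z s P.u P.v φ x) :
    Bound e z s P :=
  ⟨fun X _ φ x => ⟨(h X φ x).1, (h X φ x).2.1⟩, fun hs X _ φ x => (h X φ x).2.2.1 hs,
    fun X _ φ x => (h X φ x).2.2.2⟩

/-- A solid torus of slope at least `-z` (for the sign `1`), or at most `z` (for the sign `-1`). -/
theorem torus_bound {e z p q : ℤ} {s : Bool} (he : e = 1 ∨ e = -1) (hp : 1 ≤ p)
    (h : 0 ≤ p * z + e * q) (hs : s = true → 0 < p * z + e * q) : Bound e z s (torus p q) := by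
  refine bound_of fun X _ φ x => boundAt_core (K := Multiplicative ℤ)
    (Multiplicative.ofAdd (1 : ℤ)) ?_ ?_ ?_ he hp h hs φ x
  · rw [← ofAdd_zsmul, smul_eq_mul, mul_one]
    rfl
  · rw [← ofAdd_zsmul, smul_eq_mul, mul_one]
    rfl
  · intro k
    refine ⟨Multiplicative.toAdd k, ?_⟩
    rw [← ofAdd_zsmul, smul_eq_mul, mul_one]
    rfl

/-- The standard pieces. -/
theorem shifted_bound {e z : ℤ} {s : Bool} (he : e = 1 ∨ e = -1) {F : Filling} (hF : F.Positive) :
    Bound e z s (shifted e z F) := by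
  refine bound_of fun X _ φ x => ?_
  have hg := hF.good X φ x
  exact boundAt_shifted (K := F.piece.K) he φ x hg.1 hg.2.1 hg.2.2

theorem Admissible.bound {e z : ℤ} {s : Bool} {P : Piece} (he : e = 1 ∨ e = -1)
    (h : Admissible e z s P) : Bound e z s P := by
  cases h with
  | torus p q hp h hs => exact torus_bound he hp h hs
  | shifted F h => exact shifted_bound he h
  | other P h => exact h

end Pool.Agent.H762.Three
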