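import Pool.Agent.H762.LeeTab

/-! # The closure of the full twist on three strands, with one component reversed -/

set_option autoImplicit false
set_option maxRecDepth 100000

namespace Pool.Agent.H762.LeeS

open Finset

/-- the table of `mate` -/
def mateTab : Fin 6 → Fin 4 → HE 6 :=
  ![
    ![(5, 2), (1, 3), (2, 3), (4, 2)],
    ![(5, 1), (3, 0), (2, 0), (0, 1)],
    ![(1, 2), (3, 3), (4, 3), (0, 2)],
    ![(1, 1), (5, 0), (4, 0), (2, 1)],
    ![(3, 2), (5, 3), (0, 3), (2, 2)],
    ![(3, 1), (1, 0), (0, 0), (4, 1)]]

/-- the table of `out` -/
def outTab : Fin 6 → Fin 4 → Bool :=
  ![
    ![false, true, true, false],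
    ![true, true, false, false],
    ![true, true, false, false],
    ![false, true, true, false],
    ![false, false, true, true],
    ![false, false, true, true]]

/-- the faces of the diagram -/
def faceTab : Fin 6 → Fin 4 → Fin 8 :=
  ![
    ![0, 1, 2, 3],
    ![1, 4, 5, 2],
    ![2, 5, 6, 3],
    ![5, 4, 7, 6],
    ![6, 7, 0, 3],
    ![7, 4, 1, 0]]

/-- a half-edge on every face -/
def repTab : Fin 8 → HE 6 := ![(0, 0), (0, 1), (0, 2), (0, 3), (1, 1), (1, 2), (2, 2), (3, 2)]

/-- moving along a face -/
def step (h : HE 6) : HE 6 := next (mateTab h.1 h.2)

theorem step_iter (k : ℕ) (h : HE 6) :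
    Quot.mk (fun h h' : HE 6 => h' = next (mateTab h.1 h.2)) (step^[k] h) = Quot.mk _ h := by
  induction k with
  | zero => rfl
  | succ k ih =>
    rw [Function.iterate_succ_apply']
    rw [← ih]
    exact (Quot.sound (r := fun h h' : HE 6 => h' = next (mateTab h.1 h.2)) rfl).symm

theorem face_step : ∀ h : HE 6, faceTab (step h).1 (step h).2 = faceTab h.1 h.2 := by
  decide +kernel

theorem rep_face : ∀ a : Fin 8, faceTab (repTab a).1 (repTab a).2 = a := by decide +kernel

theorem reach_rep : ∀ h : HE 6, ∃ k : Fin 6, step^[k.1] h = repTab (faceTab h.1 h.2) := by
  decide +kernel

/-- The closure of the braid `(σ₁ σ₂)³`, which consists of three fibres of the Hopf fibration,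
with one of the three components reversed. -/
def torus33 : Diagram 6 where
  mate h := mateTab h.1 h.2
  out h := outTab h.1 h.2
  mate_mate := by decide +kernel
  mate_ne := by decide +kernel
  out_mate := by decide +kernel
  out_opposite := by decide +kernel
  connected f h1 h2 := by
    have hk : ∀ i : Fin 6, ∀ k : Fin 4, f (i, k) = f (i, 0) := by
      intro i k
      have e0 : f (i, 1) = f (i, 0) := h2 (i, 0)
      have e1 : f (i, 2) = f (i, 1) := h2 (i, 1)
      have e2 : f (i, 3) = f (i, 2) := h2 (i, 2)
      fin_cases k
      · rfl
      · exact e0
      · exact e1.trans e0
      · exact e2.trans (e1.trans e0)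
    have a5 : f (5, 2) = f (0, 0) := h1 (0, 0)
    have a1 : f (1, 3) = f (0, 1) := h1 (0, 1)
    have a2 : f (2, 3) = f (0, 2) := h1 (0, 2)
    have a4 : f (4, 2) = f (0, 3) := h1 (0, 3)
    have a3 : f (3, 0) = f (1, 1) := h1 (1, 1)
    have hi : ∀ i : Fin 6, f (i, 0) = f (0, 0) := by
      intro i
      fin_cases i
      · rfl
      · show f (1, 0) = _
        rw [← hk 1 3, a1, hk]
      · show f (2, 0) = _
        rw [← hk 2 3, a2, hk]
      · show f (3, 0) = _
        rw [a3, hk, ← hk 1 3, a1, hk]
      · show f (4, 0) = _
        rw [← hk 4 2, a4, hk]
      · show f (5, 0) = _
        rw [← hk 5 2, a5]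
    rintro ⟨i, k⟩ ⟨i', k'⟩
    rw [hk i, hi i, hk i', hi i']
  spherical := by
    have e : (Quot fun h h' : HE 6 => h' = next (mateTab h.1 h.2)) ≃ Fin 8 :=
      { toFun := Quot.lift (fun h => faceTab h.1 h.2) (by
          rintro h h' rfl
          exact (face_step h).symm)
        invFun := fun a => Quot.mk _ (repTab a)
        left_inv := by
          rintro ⟨h⟩
          obtain ⟨k, hk⟩ := reach_rep h
          show Quot.mk _ (repTab (faceTab h.1 h.2)) = Quot.mk _ h
          rw [← hk]
          exact step_iter k h
        right_inv := fun a => rep_face a }
    rw [Nat.card_congr e]
    simp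

/-- table -/
def mtA (j : ℕ) : ℕ := (0x8808d50eee4c28514de60a19592cf6 >>> (5 * j)) &&& 31

/-- table -/
def ixA (R j : ℕ) : ℕ :=
  (0x20124924924904824000000000020124004800000000000000000000000020100904800020124944a25209024000000000000000000020124904824000024000020124004800000020144a48929104824000040248029124004800020124004800000000000000000000000020124924924904824000020124024924004800000000000000000020100904800000000040225229124904824040201209020124004820100904800000000040201229100904800060325b4da25209024020100904800000000040225209024000024000000000000000000020124924924904824000000000020124004800000000000000000020100924900904800040225249225209024000000000000000000000024000024000024000920124924924904800000000000000000001240249229125204800920124904800900000920144a2522910480000002010090480000092012492492490480000000000000000000094024892912490480002012400480000000126036d22d9252048009402489090009000009201249249249048000000000000000000012201252249252048009000009000009000000000000000000000000240201249048240000000000201240048000000000000000000000000201009048000000240402252090240000000000000000000000240000240000240009000009201249048000000000000000000012000012201252048009000009000009000000000000000000000000240000240000240009000009000009000012240012240012240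 >>>
    (3 * (24 * R + j))) &&& 7

/-- table -/
def ldA (R c : ℕ) : ℕ :=
  (0x400000000020000000000000000000a00000001440000000000000000000400000000120000000244000000024200000000120000000000000000000400000000020000000000000000001a00000003440000000342000000001a000000034a0000006944000000001a00000003440000000000000000000400000000020000000000000000000a00000001440000000000000000000400000000020000000000000000010200000000080000000142000000000a00000000020000000000000000024200000000120000004902000000024800000000020000000000000000010200000000080000000000000000000400000000020000000000000000000a000000014400000000000000000004000000000200000000000000000102000000000800000000000000000004000000000800000001040 >>>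
    (5 * (8 * R + c))) &&& 31

/-- code of the canonical labelling -/
def cmA (j : ℕ) : Bool := (9845100).testBit j

theorem mtA_key : ∀ h, key (torus33.mate h) = mtA (key h) := by decide +kernel

/-- the table of the circles -/
def tabA : Tab torus33 := mkTab mtA ixA ldA mtA_key (by decide +kernel)

theorem canonA : torus33.Canonical fun h => cmA (key h) := by
  refine ⟨?_, ?_, ?_⟩ <;> decide +kernel

theorem orientedA : torus33.oriented = bits 54 := by
  funext i
  revert i
  decide +kernel

theorem wA : ((univ.filter fun i => torus33.positive i = true).card : ℤ)
      - 2 * (univ.filter fun i => torus33.positive i = false).card = -6 := by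
  decide +kernel

theorem checkAp : check ixA ldA 6 (-6) 54 cmA (1)
    [(23, 4, -1), (23, 1, 1), (27, 2, 1), (27, 1, -1), (29, 1, 1), (53, 4, 1), (29, 2, -1), (45,
    2, 1), (53, 2, -1), (45, 1, -1), (54, 4, -1), (54, 2, 1)]
    [(7, 3, -2), (22, 3, -2)]
    (-1) = true := by decide +kernel

theorem filtAp : filtDeg (D := torus33) (genSum (fun h => cmA (key h)) (1)) = -1 := by
  have := filtDeg_of_check tabA ixA ldA rfl rfl (-6) wA 54 (by norm_num) orientedA cmA (1)
    _ _ (-1) checkAp
  simpa using this

theorem checkAm : check ixA ldA 6 (-6) 54 cmA (-1)
    [(23, 5, 1), (27, 6, 1), (23, 3, 1), (39, 1, -1), (29, 6, -1), (27, 5, -1), (29, 5, 1), (53,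
    6, -1), (45, 6, 1), (51, 1, 1), (45, 5, -1), (53, 3, -1), (54, 6, 1), (54, 3, 1)]
    []
    (-3) = true := by decide +kernel

theorem filtAm : filtDeg (D := torus33) (genSum (fun h => cmA (key h)) (-1)) = -3 := by
  have := filtDeg_of_check tabA ixA ldA rfl rfl (-6) wA 54 (by norm_num) orientedA cmA (-1)
    _ _ (-3) checkAm
  simpa using this

theorem rasmussenA : torus33.rasmussen = -2 := by
  rw [rasmussen_eq canonA (-1) (-3) filtAp filtAm]
  norm_num

/-- table -/
def mtB (j : ℕ) : ℕ := (0x640676a456222772864ea016fac546 >>> (5 * j)) &&& 31

/-- table -/
def ixB (R j : ℕ) : ℕ :=
  (0x40204840204840204820100020100020100000004800004800004800000000000000000020100020100020100044a24944a00940224000000000000000000004824904800900024000004800004800004800000000000000000000004848044a01204800000024020100900000000000000000000024924924900920124000004824024900904800000000000000000020100020100020100044a00940200040224000000000000000000004800900000000024020148029101220100044a6c94da01b40224000024004800900000004848909001200024000000000000000000004800900000000024000000024020100900004800948040201224020124024900920100044a48949201240224000000000000000000004800900000000024000004800004800004800000000000000000048044a49244a01204824020124920100900000000000000000000024924924900920124024024924924900904800000000000000000048044a0120480000482402010090000000006c064b49b44a01204848040225220100900024020100900000000048944a25200920124048044a25224900904824020100900000000000000000000000000024900920100020124024024924924900904800000000000000000000024004800900000024948929101220124024048929125200904800024004800900000024024900904800004800000000000000000024024948944a012048000000240201009000000000000000000000249249249009201240240249249249009048000000000000000000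 >>>
    (3 * (24 * R + j))) &&& 7

/-- table -/
def ldB (R c : ℕ) : ℕ :=
  (0x1020000000008000000000200000000000000000008000000010400000000000000000004000000000200000000000000000102000000000800000000000000000004000000000200000000000000000008000000010400000000000000000004000000020800000041040000000010000000020400000000000000000004000000000800000001040000000008000000010400000000000000000004000000000200000000000000000102000000000800000000000000000004000000000200000000000000000302000000001800000061020000000308000000001800000003040000000302000000001800000000000000000004000000000200000000000000000010000000020400000002020000000010000000000200000000000000000102000000000800000000000000000004000000000200000000000 >>>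
    (5 * (8 * R + c))) &&& 31

/-- code of the canonical labelling -/
def cmB (j : ℕ) : Bool := (12819510).testBit j

theorem mtB_key : ∀ h, key (torus33.neg.mate h) = mtB (key h) := by decide +kernel

/-- the table of the circles -/
def tabB : Tab torus33.neg := mkTab mtB ixB ldB mtB_key (by decide +kernel)

theorem canonB : torus33.neg.Canonical fun h => cmB (key h) := by
  refine ⟨?_, ?_, ?_⟩ <;> decide +kernel

theorem orientedB : torus33.neg.oriented = bits 9 := by
  funext i
  revert i
  decide +kernel

theorem wB : ((univ.filter fun i => torus33.neg.positive i = true).card : ℤ)
      - 2 * (univ.filter fun i => torus33.neg.positive i = false).card = 0 := by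
  decide +kernel

theorem checkBp : check ixB ldB 6 (0) 9 cmB (1)
    [(10, 7, -2), (9, 7, 2), (17, 7, -2), (18, 7, 2)]
    []
    (-1) = true := by decide +kernel

theorem filtBp : filtDeg (D := torus33.neg) (genSum (fun h => cmB (key h)) (1)) = -1 := by
  have := filtDeg_of_check tabB ixB ldB rfl rfl (0) wB 9 (by norm_num) orientedB cmB (1)
    _ _ (-1) checkBp
  simpa using this

theorem checkBm : check ixB ldB 6 (0) 9 cmB (-1)
    [(5, 6, -1), (5, 5, 1), (9, 6, 1), (9, 5, -1)]
    []
    (1) = true := by decide +kernel

theorem filtBm : filtDeg (D := torus33.neg) (genSum (fun h => cmB (key h)) (-1)) = 1 := by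
  have := filtDeg_of_check tabB ixB ldB rfl rfl (0) wB 9 (by norm_num) orientedB cmB (-1)
    _ _ (1) checkBm
  simpa using this

theorem rasmussenB : torus33.neg.rasmussen = 0 := by
  rw [rasmussen_eq canonB (-1) (1) filtBp filtBm]
  norm_num

end Pool.Agent.H762.LeeS
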