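import Pool.Agent.H762.Torus33

/-! # The determinant of the example is not zero -/

set_option autoImplicit false

namespace Pool.Agent.H762.LeeS

theorem detA : torus33.NonzeroDet := by
  intro c h1 h2 h3
  have a0 : c (5, 2) = c (0, 0) := h1 (0, 0)
  have a1 : c (1, 3) = c (0, 1) := h1 (0, 1)
  have a2 : c (2, 3) = c (0, 2) := h1 (0, 2)
  have a3 : c (4, 2) = c (0, 3) := h1 (0, 3)
  have a4 : c (5, 1) = c (1, 0) := h1 (1, 0)
  have a5 : c (3, 0) = c (1, 1) := h1 (1, 1)
  have a6 : c (2, 0) = c (1, 2) := h1 (1, 2)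
  have a7 : c (3, 3) = c (2, 1) := h1 (2, 1)
  have a8 : c (4, 3) = c (2, 2) := h1 (2, 2)
  have a9 : c (5, 0) = c (3, 1) := h1 (3, 1)
  have a10 : c (4, 0) = c (3, 2) := h1 (3, 2)
  have a11 : c (5, 3) = c (4, 1) := h1 (4, 1)
  have b0 : c (0, 3) = c (0, 1) := h2 0
  have e0 : 2 * c (0, 1) = c (0, 0) + c (0, 2) := h3 0
  have b1 : c (1, 3) = c (1, 1) := h2 1
  have e1 : 2 * c (1, 1) = c (1, 0) + c (1, 2) := h3 1
  have b2 : c (2, 3) = c (2, 1) := h2 2
  have e2 : 2 * c (2, 1) = c (2, 0) + c (2, 2) := h3 2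
  have b3 : c (3, 3) = c (3, 1) := h2 3
  have e3 : 2 * c (3, 1) = c (3, 0) + c (3, 2) := h3 3
  have b4 : c (4, 3) = c (4, 1) := h2 4
  have e4 : 2 * c (4, 1) = c (4, 0) + c (4, 2) := h3 4
  have b5 : c (5, 3) = c (5, 1) := h2 5
  have e5 : 2 * c (5, 1) = c (5, 0) + c (5, 2) := h3 5
  have key : ∀ h, c h = c (0, 0) := by
    rintro ⟨i, k⟩
    fin_cases i <;> fin_cases k
    · show c (0, 0) = c (0, 0)
      linarith
    · show c (0, 1) = c (0, 0)
      linarith
    · show c (0, 2) = c (0, 0)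
      linarith
    · show c (0, 3) = c (0, 0)
      linarith
    · show c (1, 0) = c (0, 0)
      linarith
    · show c (1, 1) = c (0, 0)
      linarith
    · show c (1, 2) = c (0, 0)
      linarith
    · show c (1, 3) = c (0, 0)
      linarith
    · show c (2, 0) = c (0, 0)
      linarith
    · show c (2, 1) = c (0, 0)
      linarith
    · show c (2, 2) = c (0, 0)
      linarith
    · show c (2, 3) = c (0, 0)
      linarith
    · show c (3, 0) = c (0, 0)
      linarith
    · show c (3, 1) = c (0, 0)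
      linarith
    · show c (3, 2) = c (0, 0)
      linarith
    · show c (3, 3) = c (0, 0)
      linarith
    · show c (4, 0) = c (0, 0)
      linarith
    · show c (4, 1) = c (0, 0)
      linarith
    · show c (4, 2) = c (0, 0)
      linarith
    · show c (4, 3) = c (0, 0)
      linarith
    · show c (5, 0) = c (0, 0)
      linarith
    · show c (5, 1) = c (0, 0)
      linarith
    · show c (5, 2) = c (0, 0)
      linarith
    · show c (5, 3) = c (0, 0)
      linarith
  intro h h'
  rw [key h, key h']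

theorem detB : torus33.neg.NonzeroDet := by
  intro c h1 h2 h3
  have a0 : c (1, 2) = c (0, 0) := h1 (0, 0)
  have a1 : c (2, 2) = c (0, 1) := h1 (0, 1)
  have a2 : c (4, 1) = c (0, 2) := h1 (0, 2)
  have a3 : c (5, 1) = c (0, 3) := h1 (0, 3)
  have a4 : c (3, 3) = c (1, 0) := h1 (1, 0)
  have a5 : c (2, 3) = c (1, 1) := h1 (1, 1)
  have a6 : c (5, 0) = c (1, 3) := h1 (1, 3)
  have a7 : c (3, 2) = c (2, 0) := h1 (2, 0)
  have a8 : c (4, 2) = c (2, 1) := h1 (2, 1)
  have a9 : c (5, 3) = c (3, 0) := h1 (3, 0)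
  have a10 : c (4, 3) = c (3, 1) := h1 (3, 1)
  have a11 : c (5, 2) = c (4, 0) := h1 (4, 0)
  have b0 : c (0, 3) = c (0, 1) := h2 0
  have e0 : 2 * c (0, 1) = c (0, 0) + c (0, 2) := h3 0
  have b1 : c (1, 3) = c (1, 1) := h2 1
  have e1 : 2 * c (1, 1) = c (1, 0) + c (1, 2) := h3 1
  have b2 : c (2, 3) = c (2, 1) := h2 2
  have e2 : 2 * c (2, 1) = c (2, 0) + c (2, 2) := h3 2
  have b3 : c (3, 3) = c (3, 1) := h2 3
  have e3 : 2 * c (3, 1) = c (3, 0) + c (3, 2) := h3 3
  have b4 : c (4, 3) = c (4, 1) := h2 4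
  have e4 : 2 * c (4, 1) = c (4, 0) + c (4, 2) := h3 4
  have b5 : c (5, 3) = c (5, 1) := h2 5
  have e5 : 2 * c (5, 1) = c (5, 0) + c (5, 2) := h3 5
  have key : ∀ h, c h = c (0, 0) := by
    rintro ⟨i, k⟩
    fin_cases i <;> fin_cases k
    · show c (0, 0) = c (0, 0)
      linarith
    · show c (0, 1) = c (0, 0)
      linarith
    · show c (0, 2) = c (0, 0)
      linarith
    · show c (0, 3) = c (0, 0)
      linarith
    · show c (1, 0) = c (0, 0)
      linarith
    · show c (1, 1) = c (0, 0)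
      linarith
    · show c (1, 2) = c (0, 0)
      linarith
    · show c (1, 3) = c (0, 0)
      linarith
    · show c (2, 0) = c (0, 0)
      linarith
    · show c (2, 1) = c (0, 0)
      linarith
    · show c (2, 2) = c (0, 0)
      linarith
    · show c (2, 3) = c (0, 0)
      linarith
    · show c (3, 0) = c (0, 0)
      linarith
    · show c (3, 1) = c (0, 0)
      linarith
    · show c (3, 2) = c (0, 0)
      linarith
    · show c (3, 3) = c (0, 0)
      linarith
    · show c (4, 0) = c (0, 0)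
      linarith
    · show c (4, 1) = c (0, 0)
      linarith
    · show c (4, 2) = c (0, 0)
      linarith
    · show c (4, 3) = c (0, 0)
      linarith
    · show c (5, 0) = c (0, 0)
      linarith
    · show c (5, 1) = c (0, 0)
      linarith
    · show c (5, 2) = c (0, 0)
      linarith
    · show c (5, 3) = c (0, 0)
      linarith
  intro h h'
  rw [key h, key h']

end Pool.Agent.H762.LeeS
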